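import Pool.Agent.L0h2.N.Stm
import Pool.Agent.L0h2.J.Asy
import Pool.Agent.L0h2.K.Asy

/-!
# Joint law of a cubic twist and several quadratic twists: the final asymptotics
-/

set_option autoImplicit false
set_option linter.unusedVariables false

open scoped Classical
open Finset hiding mk
open Filter hiding mk

namespace Pool.Agent.L0h2.N

open Pool.Agent.Y703.CX (lam LamP sm la jj XX eL zz kk S_SIE c3 eL_tendsto logX_eq rpow_eL HH NN ev_eL
  one_le_exp HH_ge HH_le HH_pos kk_ge kk_le X_pos one_add_log lin_le kap zz_ge zz_pos kap_nonneg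
  kap_pow kap_le S_C3)
open Pool.Agent.Y703.CQ (c2 S_C2)
open Pool.Agent.R413.SQ (mk Sml sml_of sml_add sml_rpow cmp)
open Pool.Agent.L0h2.J (SS S_EQ S_BA S_BB CntP)
open Pool.Agent.L0h2.K (Zc Nz sml_mono sml_sum)
open Pool.Agent.L0h2.M (S_LAm er KT)

/-- the main error term -/
theorem sml_main {C : ℝ} (hC : 1 ≤ C) {t : ℝ} (ht : t < 1) (q : ℕ) :
    Sml t fun X => (q * (NN X : ℝ) + q) ^ kk X *
    (3 ^ (8 * kk X ^ 2) * kap C X) * (X * (1 + Real.log X)) := by
  apply sml_of (C := 4 * C) (a := 1) ht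
  filter_upwards [ev_eL 14000, ev_eL q] with X hX hq
  set l := eL X with hl
  have h0 : 0 < eL X := by linarith
  have h1 : 1 ≤ eL X := by linarith
  have hX0 : (0 : ℝ) ≤ X := Nat.cast_nonneg _
  have hN : 9 * (NN X : ℝ) + 9 ≤ Real.exp (5 * l) := by
    have h2 : (NN X : ℝ) ≤ HH X * Real.log X + 1 := by
      unfold Pool.Agent.Y703.CX.NN
      push_cast
      have := Nat.floor_le (a := (HH X : ℝ) * Real.log X)
        (mul_nonneg (Nat.cast_nonneg _) (Real.log_natCast_nonneg X))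
      linarith
    have h3 : (HH X : ℝ) * Real.log X ≤ 2 * Real.exp (4 * l) := by
      rw [logX_eq h0]
      calc (HH X : ℝ) * Real.exp (eL X) ≤ 2 * Real.exp (3 * eL X) * Real.exp (eL X) :=
            mul_le_mul_of_nonneg_right (HH_le h0) (Real.exp_pos _).le
        _ = 2 * Real.exp (4 * l) := by
            rw [mul_assoc, ← Real.exp_add]
            congr 2
            rw [hl]
            ring
    have h4 : 1 ≤ Real.exp (4 * l) := one_le_exp (by linarith)
    have h5 : (36 : ℝ) ≤ Real.exp l := by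
      have := Real.add_one_le_exp l
      linarith
    have h6 : Real.exp (5 * l) = Real.exp (4 * l) * Real.exp l := by
      rw [← Real.exp_add]; congr 1; ring
    rw [h6]
    nlinarith
  have hN' : (q : ℝ) * NN X + q ≤ Real.exp (6 * l) := by
    have h2 : (q : ℝ) ≤ Real.exp l := by
      have := Real.add_one_le_exp l
      linarith
    have h3 : (NN X : ℝ) + 1 ≤ Real.exp (5 * l) := by
      have : (0 : ℝ) ≤ NN X := Nat.cast_nonneg _
      linarith
    have h4 : (0 : ℝ) ≤ (NN X : ℝ) + 1 := by positivity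
    calc (q : ℝ) * NN X + q = q * ((NN X : ℝ) + 1) := by ring
      _ ≤ Real.exp l * Real.exp (5 * l) := mul_le_mul h2 h3 h4 (Real.exp_pos _).le
      _ = Real.exp (6 * l) := by
          rw [← Real.exp_add]
          congr 1
          ring
  have hkk := kk_le h1
  have hkk0 : (0 : ℝ) ≤ kk X := Nat.cast_nonneg _
  have hA : ((q : ℝ) * NN X + q) ^ kk X ≤ Real.exp (66 * l ^ 2) := by
    calc ((q : ℝ) * NN X + q) ^ kk X ≤ (Real.exp (6 * l)) ^ kk X := by gcongr
      _ = Real.exp (kk X * (6 * l)) := (Real.exp_nat_mul _ _).symm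
      _ ≤ Real.exp (66 * l ^ 2) := by
          apply Real.exp_le_exp.2
          nlinarith
  have hB : (3 : ℝ) ^ (8 * kk X ^ 2) ≤ Real.exp (1065 * l ^ 2) := by
    have e : (3 : ℝ) ^ (8 * kk X ^ 2) = Real.exp ((8 * (kk X : ℝ) ^ 2) * Real.log 3) := by
      rw [mul_comm (8 * (kk X : ℝ) ^ 2) (Real.log 3), Real.exp_mul, Real.exp_log (by norm_num)]
      rw [← Real.rpow_natCast]
      congr 1
      push_cast
      ring
    rw [e]
    apply Real.exp_le_exp.2
    have h2 : Real.log 3 ≤ 1.1 := by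
      have h3 : (3 : ℝ) ≤ Real.exp 1.1 := by
        have h4 : (2.7182818283 : ℝ) < Real.exp 1 := Real.exp_one_gt_d9
        have h5 : (1.105 : ℝ) ≤ Real.exp 0.1 := by
          have := Real.quadratic_le_exp_of_nonneg (x := 0.1) (by norm_num)
          norm_num at this ⊢
          linarith
        have h6 : Real.exp 1.1 = Real.exp 1 * Real.exp 0.1 := by
          rw [← Real.exp_add]; norm_num
        rw [h6]
        nlinarith
      calc Real.log 3 ≤ Real.log (Real.exp 1.1) := Real.log_le_log (by norm_num) h3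
        _ = 1.1 := Real.log_exp _
    have h3 : (kk X : ℝ) ^ 2 ≤ 121 * l ^ 2 := by nlinarith
    have h4 : 0 ≤ (kk X : ℝ) ^ 2 := sq_nonneg _
    have h5 : 8 * (kk X : ℝ) ^ 2 * Real.log 3 ≤ 8 * (kk X : ℝ) ^ 2 * 1.1 :=
      mul_le_mul_of_nonneg_left h2 (by positivity)
    have h6 : 0 ≤ l ^ 2 := sq_nonneg _
    linarith
  have hK := kap_le hC h1
  have hLg := one_add_log h0
  have hmain : ((q : ℝ) * NN X + q) ^ kk X * (3 ^ (8 * kk X ^ 2) * kap C X) *
      (X * (1 + Real.log X)) ≤ Real.exp (66 * l ^ 2) * (Real.exp (1065 * l ^ 2) *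
        (2 * C * Real.exp (-l ^ 3 / 12))) * (X * (2 * Real.exp l)) := by
    have := kap_nonneg hC X
    have : 0 ≤ 1 + Real.log X := by
      have := Real.log_natCast_nonneg X
      linarith
    gcongr
  refine hmain.trans ?_
  have e : Real.exp (66 * l ^ 2) * (Real.exp (1065 * l ^ 2) *
        (2 * C * Real.exp (-l ^ 3 / 12))) * (X * (2 * Real.exp l)) =
      4 * C * (X * Real.exp (66 * l ^ 2 + 1065 * l ^ 2 + -l ^ 3 / 12 + l)) := by
    rw [Real.exp_add, Real.exp_add, Real.exp_add]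
    ring
  rw [e]
  have h9 : 66 * l ^ 2 + 1065 * l ^ 2 + -l ^ 3 / 12 + l ≤ -1 * l := by
    have h10 : 14000 * l ^ 2 ≤ l ^ 3 := by
      have : l ^ 3 = l * l ^ 2 := by ring
      rw [this]
      exact mul_le_mul_of_nonneg_right hX (sq_nonneg l)
    nlinarith
  have h11 := Real.exp_le_exp.2 h9
  have hC0 : (0 : ℝ) ≤ 4 * C := by linarith
  gcongr

/-- the sets with few large primes in a class -/
noncomputable def Fn (R : Finset ℕ) (X z κ V c : ℕ) : Finset (Finset ℕ) :=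
  (SS X).filter fun S => ((la z S).filter fun p => p % qn R = c).card ≤ κ * (sm z S).card + V

/-- the sets outside the regular part -/
theorem out_sub (t : ℕ) (R : Finset ℕ) (a : ℕ → ℕ) (X z H k V : ℕ) :
    SS X \ ((RN t R a X z H k V).filter fun S => Nn R (sm z S) (la z S)) ⊆
      ((((((SS X).filter fun S => k < S.card) ∪
      ((SS X).filter fun S => S.card ≤ k ∧
        X < (∏ p ∈ sm z S, p) * ∏ p ∈ la z S, XX H (jj H p))) ∪
      ((SS X).filter fun S => ¬ Set.InjOn (jj H) (la z S : Set ℕ))) ∪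
      (R.biUnion fun r => Fn R X z (t + 2) ((t + 2) * R.card + 3 * V) (a r))) ∪
      (((SS X).filter fun S => ∀ p ∈ la z S, mk p = 1) ∪
      ((SS X).filter fun S => S.card ≤ k ∧ ¬ Pool.Agent.Y703.CX.Nd (sm z S) (la z S)))) ∪
      ((SS X).filter fun S => S.card ≤ k ∧ ¬ Nz R ((sm z S) \ R) (la z S)) := by
  intro S hS
  rw [Finset.mem_sdiff, Finset.mem_filter] at hS
  obtain ⟨g1, g2⟩ := hS
  simp only [mem_union, mem_filter, mem_biUnion]
  by_contra hc
  push Not at hc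
  obtain ⟨⟨⟨⟨⟨c1, c2⟩, c3⟩, c4⟩, c5, c6⟩, c7⟩ := hc
  have d1 : S.card ≤ k := c1 g1
  have d2 := c2 g1 d1
  have d3 := c3 g1
  have d4 : ∀ r ∈ R, (t + 2) * (sm z S).card + ((t + 2) * R.card + 3 * V) <
      ((la z S).filter fun p => p % qn R = a r).card := by
    intro r hr
    have h4 := c4 r hr
    unfold Fn at h4
    rw [mem_filter] at h4
    by_contra h5
    exact h4 ⟨g1, not_lt.1 h5⟩
  obtain ⟨p, hp1, hp2⟩ := c5 g1
  have d6 := c6 g1 d1
  have d7 := c7 g1 d1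
  apply g2
  refine ⟨?_, d6, d7⟩
  unfold RN
  rw [mem_filter]
  refine ⟨g1, d3, d1, d2, fun r hr => ?_, p, hp1, hp2⟩
  have h6 := d4 r hr
  have h7 : (t + 2) * ((sm z S).card + R.card) + 3 * V =
      (t + 2) * (sm z S).card + ((t + 2) * R.card + 3 * V) := by ring
  rw [h7]
  exact h6.le

theorem t_DQn (hL : LamP) (hK : ∀ t, S_KEYn t) (h1 : Pool.Agent.Y703.CX.S_BIL1)
    (h2 : Pool.Agent.Y703.CX.S_BIL2) (h3 : Pool.Agent.R413.SQ.S_BIL) (h4 : S_BA) (h5 : S_BB)
    (h6 : S_EQ) (h7 : Pool.Agent.Y703.CX.S_LA) (h8 : ∀ t, S_LAm t) (h9 : ∀ t, S_BOXn t)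
    (hC : CntP) (hS : S_SIE) (hbad3 : ∃ (C : ℝ) (X₀ : ℕ), ∀ X : ℕ, X₀ ≤ X →
      (((SS X).filter fun S => S.card ≤ kk X ∧
        ¬ Pool.Agent.Y703.CX.Nd (sm (zz X) S) (la (zz X) S)).card : ℝ) ≤
      C * X * (Real.log X) ^ (-(19 / 25) : ℝ)) (hbad : S_BADn) (hfew3 : Pool.Agent.L0h2.J.S_FEW)
    (hfew : S_FEWn) (hlow : Pool.Agent.L0h2.J.S_LOW) (hc3 : S_C3) (hc2 : S_C2) : S_DQn := by
  intro t R T a h b0 b hD
  obtain ⟨C, hC1, hkey⟩ := hK t hL h1 h2 h3 h4 h5 h6 h7 (h8 t) (h9 t)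
  obtain ⟨CB3, XB3, hbad3⟩ := hbad3
  obtain ⟨CB, XB, hbad⟩ := hbad hS R hD.pr
  obtain ⟨CI, XI, hine⟩ := hfew3 0
  obtain ⟨c, X₀, hc, hlow⟩ := hlow
  have hq0 : (0 : ℝ) < qn R := by exact_mod_cast qn_pos hD.pr
  have heta : 0 < etn R := by unfold etn; positivity
  obtain ⟨cP, hcP⟩ : ∃ cP : ℝ, cP = cn t b0 b := ⟨_, rfl⟩
  have g3a : 0 ≤ Pool.Agent.L0h2.J.cv b0 c3 ∧ Pool.Agent.L0h2.J.cv b0 c3 ≤ 1 :=
    Pool.Agent.L0h2.J.cv_mem b0 hc3.2.1.le hc3.2.2.1.le
  have hcP0 : 0 ≤ cP := by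
    rw [hcP]
    exact mul_nonneg g3a.1 (prod_nonneg fun l _ => Pool.Agent.L0h2.K.cv_nonneg hc2 _)
  have hcP1 : cP ≤ 1 := by
    rw [hcP]
    exact mul_le_one₀ g3a.2 (prod_nonneg fun l _ => Pool.Agent.L0h2.K.cv_nonneg hc2 _)
      (prod_le_one (fun l _ => Pool.Agent.L0h2.K.cv_nonneg hc2 _)
        fun l _ => Pool.Agent.L0h2.K.cv_le_one hc2 _)
  rw [← hcP, Metric.tendsto_nhds]
  intro ε hε
  have hKT : 0 ≤ KT t := by
    unfold Pool.Agent.L0h2.M.KT
    positivity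
  obtain ⟨V, hV⟩ := exists_pow_lt_of_lt_one
    (show (0 : ℝ) < ε / (4 * (2 + KT t + 4 * t + 1)) by positivity)
    (show (1 / 2 : ℝ) < 1 by norm_num)
  have hV' : (2 + KT t + 4 * t) * (1 / 2 : ℝ) ^ V ≤ ε / 4 := by
    have h6 : (0 : ℝ) < 2 + KT t + 4 * t + 1 := by positivity
    have h7 := hV.le
    rw [le_div_iff₀ (by positivity)] at h7
    have h8 : (0 : ℝ) ≤ (1 / 2 : ℝ) ^ V := by positivity
    nlinarith
  have s1 : Sml (3 / 4) fun X => (((SS X).filter fun S => kk X < S.card).card : ℝ) :=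
    Pool.Agent.L0h2.J.sml_many hC
  have s2 : Sml (3 / 4) fun X => (((SS X).filter fun S => S.card ≤ kk X ∧
      X < (∏ p ∈ sm (zz X) S, p) * ∏ p ∈ la (zz X) S, XX (HH X) (jj (HH X) p)).card : ℝ) :=
    Pool.Agent.L0h2.J.sml_cut hC
  have s3 : Sml (3 / 4) fun X => (((SS X).filter fun S =>
      ¬ Set.InjOn (jj (HH X)) (la (zz X) S : Set ℕ)).card : ℝ) :=
    Pool.Agent.L0h2.J.sml_coll hC
  have s4 : Sml (3 / 4) fun X => ∑ r ∈ R, ((Fn R X (zz X) (t + 2) ((t + 2) * R.card + 3 * V)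
      (a r)).card : ℝ) := by
    refine sml_sum R _ fun r hr => ?_
    obtain ⟨CF, XF, hfew⟩ := hfew hS R hD.pr (a r) (t + 2) ((t + 2) * R.card + 3 * V)
      (hD.lt r hr) (hD.cop r hr) (hD.a4 r hr) (hD.a3 r hr) (by omega)
    exact sml_rpow (by linarith) hfew
  have s5 : Sml (3 / 4) fun X => (((SS X).filter fun S => ∀ p ∈ la (zz X) S, mk p = 1).card : ℝ) := by
    refine sml_mono (fun X => ?_) (sml_rpow (t := 3 / 4) (by norm_num) hine)
    have hsub : ((SS X).filter fun S => ∀ p ∈ la (zz X) S, mk p = 1) ⊆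
        (SS X).filter fun S => ((la (zz X) S).filter fun p => p % 3 = 1).card ≤
          (sm (zz X) S).card + 0 ∨
        ((la (zz X) S).filter fun p => mk p = 1).card ≤ 2 * (sm (zz X) S).card + 0 ∨
        ∀ p ∈ la (zz X) S, mk p = 1 := by
      intro S hS
      rw [mem_filter] at hS ⊢
      exact ⟨hS.1, Or.inr (Or.inr hS.2)⟩
    exact_mod_cast card_le_card hsub
  have s6 := sml_rpow (t := 3 / 4) (by norm_num) hbad3
  have s7 := sml_rpow (t := 3 / 4) (by linarith) hbad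
  have s8 := sml_main hC1 (t := 3 / 4) (by norm_num) (qn R)
  have s := sml_add (sml_add (sml_add (sml_add (sml_add (sml_add s1 s2) s3) s4)
    (sml_add s5 s6)) s7) s8
  have hδ : (0 : ℝ) < c * ε / 4 := by positivity
  have hRz : ∀ᶠ X : ℕ in atTop, ∀ r ∈ R, r ≤ zz X := by
    filter_upwards [ev_eL 1, ev_eL (∏ r ∈ R, r : ℕ)] with X h1 h2
    intro r hr
    have g1 : r ≤ ∏ x ∈ R, x := Nat.le_of_dvd (prod_pos fun x hx => (hD.pr x hx).1.pos)
      (dvd_prod_of_mem (fun x => x) hr)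
    unfold Pool.Agent.Y703.CX.zz
    apply Nat.le_floor
    have h := Real.add_one_le_exp ((eL X) ^ 3)
    have g2 : (r : ℝ) ≤ eL X :=
      (by exact_mod_cast g1 : (r : ℝ) ≤ ((∏ x ∈ R, x : ℕ) : ℝ)).trans h2
    have g3 : eL X ≤ eL X ^ 3 := le_self_pow₀ (by linarith) (by norm_num)
    linarith
  filter_upwards [s (c * ε / 4) hδ, ev_eL 1, eventually_ge_atTop X₀, hRz] with X hX hl hX0 hRz
  have hl0 : 0 < eL X := by linarith
  have hlo := hlow X hX0
  rw [rpow_eL hl0] at hlo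
  have hXp := X_pos hl0
  have hXp' : (0 : ℝ) < X := by exact_mod_cast hXp
  have hSpos : (0 : ℝ) < ((SS X).card : ℝ) := by
    refine lt_of_lt_of_le ?_ hlo
    positivity
  have hN : (HH X : ℝ) * Real.log X < NN X := by
    unfold Pool.Agent.Y703.CX.NN
    push_cast
    exact Nat.lt_floor_add_one _
  have hmain := hkey R T a h b0 b X (zz X) (HH X) (kk X) V (NN X) (kap C X) hD hRz hXp (HH_pos hl0)
    (zz_pos hl) (kap_nonneg hC1 X) (kap_pow hC1 hl) hN
  rw [← hcP] at hmain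
  set Tt := (RN t R a X (zz X) (HH X) (kk X) V).filter
    fun S => Nn R (sm (zz X) S) (la (zz X) S) with hT
  have hTG : (RN t R a X (zz X) (HH X) (kk X) V).filter
      (fun S => Nn R (sm (zz X) S) (la (zz X) S) ∧ Pn t h T b0 b S) =
        Tt.filter (Pn t h T b0 b) := by
    rw [hT, filter_filter]
  rw [hTG] at hmain
  have hTS : Tt ⊆ SS X := (filter_subset _ _).trans (filter_subset _ _)
  have hRS : ((RN t R a X (zz X) (HH X) (kk X) V).card : ℝ) ≤ ((SS X).card : ℝ) := by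
    exact_mod_cast card_le_card (filter_subset _ _)
  have hcmp := cmp (Pn t h T b0 b) Tt (SS X) hTS cP hcP0 hcP1
  have hout : ((SS X \ Tt).card : ℝ) ≤
      (((((SS X).filter fun S => kk X < S.card).card : ℝ) +
      (((SS X).filter fun S => S.card ≤ kk X ∧
        X < (∏ p ∈ sm (zz X) S, p) * ∏ p ∈ la (zz X) S, XX (HH X) (jj (HH X) p)).card : ℝ) +
      (((SS X).filter fun S => ¬ Set.InjOn (jj (HH X)) (la (zz X) S : Set ℕ)).card : ℝ) +
      ∑ r ∈ R, ((Fn R X (zz X) (t + 2) ((t + 2) * R.card + 3 * V) (a r)).card : ℝ)) +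
      ((((SS X).filter fun S => ∀ p ∈ la (zz X) S, mk p = 1).card : ℝ) +
      (((SS X).filter fun S => S.card ≤ kk X ∧
        ¬ Pool.Agent.Y703.CX.Nd (sm (zz X) S) (la (zz X) S)).card : ℝ))) +
      (((SS X).filter fun S => S.card ≤ kk X ∧
        ¬ Nz R ((sm (zz X) S) \ R) (la (zz X) S)).card : ℝ) := by
    have g := card_le_card (out_sub t R a X (zz X) (HH X) (kk X) V)
    rw [← hT] at g
    have g2 := (g.trans (card_union_le _ _)).trans (Nat.add_le_add_right ((card_union_le _ _).trans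
      (Nat.add_le_add ((card_union_le _ _).trans
      (Nat.add_le_add ((card_union_le _ _).trans
      (Nat.add_le_add_right (card_union_le _ _) _)) card_biUnion_le)) (card_union_le _ _))) _)
    exact_mod_cast g2
  have htot : |(((SS X).filter (Pn t h T b0 b)).card : ℝ) - cP * ((SS X).card : ℝ)| ≤
      (2 + KT t + 4 * t) * (1 / 2 : ℝ) ^ V * ((SS X).card : ℝ) +
        c * ε / 4 * (X * Real.exp (-(3 / 4) * eL X)) := by
    have g1 : (2 + KT t + 4 * t) * (1 / 2 : ℝ) ^ V *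
        ((RN t R a X (zz X) (HH X) (kk X) V).card : ℝ) ≤
        (2 + KT t + 4 * t) * (1 / 2 : ℝ) ^ V * ((SS X).card : ℝ) :=
      mul_le_mul_of_nonneg_left hRS (by positivity)
    linarith
  rw [Real.dist_eq]
  have e3 : (((SS X).filter (Pn t h T b0 b)).card : ℝ) / ((SS X).card : ℝ) - cP =
      ((((SS X).filter (Pn t h T b0 b)).card : ℝ) - cP * ((SS X).card : ℝ)) /
        ((SS X).card : ℝ) := by
    rw [sub_div, mul_div_cancel_right₀ _ hSpos.ne']
  rw [e3, abs_div, abs_of_pos hSpos, div_lt_iff₀ hSpos]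
  refine lt_of_le_of_lt htot ?_
  have g2 : c * ε / 4 * (X * Real.exp (-(3 / 4) * eL X)) ≤ ε / 4 * ((SS X).card : ℝ) := by
    calc c * ε / 4 * (X * Real.exp (-(3 / 4) * eL X)) =
          ε / 4 * (c * X * Real.exp (-(3 / 4) * eL X)) := by ring
      _ ≤ _ := mul_le_mul_of_nonneg_left hlo (by linarith)
  have g3 : (2 + KT t + 4 * t) * (1 / 2 : ℝ) ^ V * ((SS X).card : ℝ) ≤
      (ε / 4) * ((SS X).card : ℝ) := mul_le_mul_of_nonneg_right hV' hSpos.le
  have g4 : 0 < ε * ((SS X).card : ℝ) := by positivity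
  linarith

end Pool.Agent.L0h2.N
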