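import Pool.Agent.L0h2.N.Stm
import Pool.Agent.L0h2.J.BOX
import Pool.Agent.L0h2.M.BOX

/-! Joint law of a cubic twist and several quadratic twists: the count in a box. -/

set_option autoImplicit false
set_option linter.unusedVariables false

open scoped Classical

namespace Pool.Agent.L0h2.N.BOX

open Finset hiding mk
open Pool.Agent.Y703.CX (lam c3)
open Pool.Agent.Y703.CQ (nr sg c2 prs ext GdA)
open Pool.Agent.R413.SQ (mk)
open Pool.Agent.R413.SQ.BOX (Lb lb nr_symm ez0 ez0_coe)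
open Pool.Agent.L0h2.J (HB S_EQ)
open Pool.Agent.L0h2.J.BOX (HB_sub ev_card)
open Pool.Agent.L0h2.K (Zc Nz)
open Pool.Agent.L0h2.M.BOX (sum_two)
open Pool.Agent.L0h2.M (S_LAm er KT)

/-- the type of the labels -/
abbrev Lc (S₀ S₁ : Finset ℕ) : Type := ((S₀ → ZMod 3) × (S₀ → ZMod 3)) × Lb S₁

/-- the label of a prime with respect to the small primes -/
noncomputable def lc (f : ℕ → ZMod 2) (S₀ S₁ : Finset ℕ) (x : ℕ) : Lc S₀ S₁ :=
  (Pool.Agent.Y911.CX.lb S₀ x, lb f S₁ x)

/-- the good labels -/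
def LN {ι : Type} (S₀ S₁ : Finset ℕ) (J3 JZ : Finset ι) (β : ι → Lc S₀ S₁) : Prop :=
  Pool.Agent.Y911.CX.LN S₀ J3 (fun i => (β i).1) ∧
    Pool.Agent.R413.SQ.BOX.LN S₁ JZ (fun i => (β i).2)

/-- **The count in a box.** -/
theorem t_BOXn (t : ℕ) : S_BOXn t := by
  intro hEQ hLA3 hLA R T0 f b0 b ι _ _ J3 J2 JZ I K JR C X κ S₀ u Q hκ hCX hHB hS₀ hR hRne hTR0 hTi0
    hC hCR hCZ hCs hZI hIJ hKJ hKI hun hJR hJRI hJRQ hQ hu hdis hne hne2 hcard
  have k3 := Pool.Agent.Y461.CX.t_C3
  have k2 := Pool.Agent.Y948.CQ.t_C2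
  -- the small primes outside of `R` and the new twists
  obtain ⟨S₁, hS₁⟩ : ∃ S₁, S₁ = S₀ \ R := ⟨_, rfl⟩
  obtain ⟨T, hTd⟩ : ∃ T : Fin t → Finset ℕ, T = fun l => symmDiff (S₀ ∩ R) (T0 l) := ⟨_, rfl⟩
  have hTR : ∀ l, T l ⊆ R := by
    intro l x hx
    rw [hTd, Finset.mem_symmDiff] at hx
    rcases hx with hx | hx
    · exact (Finset.mem_inter.1 hx.1).2
    · exact hTR0 l hx.1
  have hTi : Function.Injective T := fun i l hil => hTi0 (symmDiff_right_injective (S₀ ∩ R) (by
    rw [hTd] at hil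
    exact hil))
  have hSR : Disjoint S₁ R := by
    rw [hS₁]
    exact Finset.sdiff_disjoint
  have hS1 : ∀ v ∈ S₁, (v.Prime ∧ v % 4 = 1) ∧ v ≠ 2 := by
    intro v hv
    rw [hS₁, Finset.mem_sdiff] at hv
    have := hS₀ v hv.1
    exact ⟨this, by omega⟩
  have hR2 : ∀ v ∈ R, (v.Prime ∧ v % 4 = 1) ∧ v ≠ 2 := by
    intro v hv
    have := hR v hv
    exact ⟨this, by omega⟩
  have hc1 : S₁.card ≤ S₀.card := by
    rw [hS₁]
    exact Finset.card_le_card Finset.sdiff_subset
  obtain ⟨ca, hca⟩ : ∃ ca : ℝ, ca = 2 * (3 ^ S₀.card / 3 ^ J3.card) := ⟨_, rfl⟩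
  obtain ⟨cb, hcb⟩ : ∃ cb : ℝ, cb = er t u Q K.card := ⟨_, rfl⟩
  rw [← hca, ← hcb]
  obtain ⟨cP, hcP⟩ : ∃ cP : ℝ, cP = ∏ l, Pool.Agent.L0h2.K.cv (b l) := ⟨_, rfl⟩
  obtain ⟨cv3, hcv3⟩ : ∃ cv3 : ℝ, cv3 = Pool.Agent.L0h2.J.cv b0 c3 := ⟨_, rfl⟩
  have hcn : cn t b0 b = cv3 * cP := by
    unfold cn
    rw [hcv3, hcP]
  rw [hcn]
  set Re : ℝ := 3 ^ (Pool.Agent.Y703.CX.prs J3).card * 2 ^ (prs J2).card *
    (κ * ∏ j, (X j : ℝ)) with hRe
  have hca0 : 0 ≤ ca := by
    rw [hca]
    positivity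
  have hcb0 : 0 ≤ cb := by
    rw [hcb]
    unfold Pool.Agent.L0h2.M.er Pool.Agent.L0h2.M.KT
    positivity
  have hR0 : 0 ≤ Re := mul_nonneg (by positivity)
    (mul_nonneg hκ (Finset.prod_nonneg fun j _ => by positivity))
  -- facts on tuples
  have hinj : ∀ p ∈ Fintype.piFinset C, Function.Injective p := by
    intro p hp i j hij
    rw [Fintype.mem_piFinset] at hp
    by_contra hne
    have h1 := Finset.disjoint_left.1 (hdis i j hne) (hp i)
    rw [hij] at h1
    exact h1 (hp j)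
  have hJ3 : ∀ p ∈ Fintype.piFinset C, ∀ i, p i % 3 = 1 ↔ i ∈ J3 := by
    intro p hp i
    rw [Fintype.mem_piFinset] at hp
    obtain ⟨-, -, h1, h2, -⟩ := hC i _ (hp i)
    constructor
    · intro h
      by_contra h3
      have := h2 h3
      omega
    · exact h1
  have hJ : ∀ p ∈ Fintype.piFinset C, ∀ i, mk (p i) = 1 ↔ i ∈ J2 := by
    intro p hp i
    rw [Fintype.mem_piFinset] at hp
    exact (hC i _ (hp i)).2.2.2.2.symm
  have hd3 : ∀ p ∈ Fintype.piFinset C, ∀ i, p i ∉ S₀ := by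
    intro p hp i
    rw [Fintype.mem_piFinset] at hp
    exact (hC i _ (hp i)).2.1
  have hd : ∀ l, ∀ p ∈ Fintype.piFinset C, ∀ i, p i ∉ S₁ ∪ T l := by
    intro l p hp i
    rw [Fintype.mem_piFinset] at hp
    rw [Finset.mem_union, not_or]
    refine ⟨fun h => ?_, fun h => hCR i _ (hp i) (hTR l h)⟩
    rw [hS₁, Finset.mem_sdiff] at h
    exact (hC i _ (hp i)).2.1 h.1
  have hpr : ∀ p ∈ Fintype.piFinset C, ∀ i, ((p i).Prime ∧ p i % 4 = 1) ∧ p i ≠ 2 := by
    intro p hp i
    rw [Fintype.mem_piFinset] at hp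
    have := (hC i _ (hp i)).1
    exact ⟨this, by omega⟩
  have hZ : ∀ p ∈ Fintype.piFinset C, ∀ i, Zc R (p i) ↔ i ∈ JZ := by
    intro p hp i
    rw [Fintype.mem_piFinset] at hp
    exact (hCZ i _ (hp i)).symm
  have hST : ∀ l, Disjoint S₁ (T l) := fun l => Disjoint.mono_right (hTR l) hSR
  have hSp : ∀ l, ∀ v ∈ S₁ ∪ T l, (v.Prime ∧ v % 4 = 1) ∧ v ≠ 2 := by
    intro l v hv
    rcases Finset.mem_union.1 hv with h | h
    · exact hS1 v h
    · exact hR2 v (hTR l h)
  have hU1 : ∀ l, (univ.filter fun v : ↥(S₁ ∪ T l) => mk (v : ℕ) = 1).card ≤ u := by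
    intro l
    refine (Finset.card_le_univ _).trans ?_
    rw [Fintype.card_coe]
    refine (Finset.card_union_le _ _).trans (le_trans ?_ hu)
    exact add_le_add hc1 (Finset.card_le_card (hTR l))
  have hQI : Q ≤ I.card := by
    obtain ⟨r, hr⟩ := hRne
    exact (hJRQ r hr).trans (Finset.card_le_card (hJRI r hr))
  -- the exceptional index
  obtain ⟨ks, hks⟩ : ∃ ks : ι, ∀ l, l ∉ J3 → l = ks := by
    by_cases h : ∃ l, l ∉ J3
    · obtain ⟨l, hl⟩ := h
      refine ⟨l, fun l' hl' => ?_⟩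
      have h1 : (J3ᶜ).card ≤ 1 := by omega
      rw [Finset.card_le_one] at h1
      exact h1 l' (Finset.mem_compl.2 hl') l (Finset.mem_compl.2 hl)
    · push Not at h
      obtain ⟨k, -⟩ := hne
      exact ⟨k, fun l hl => absurd (h l) hl⟩
  have hcount : Fintype.card S₀ + Fintype.card ι =
      (univ.filter fun u : S₀ => (u : ℕ) % 3 = 1).card + J3.card + 1 := by
    have h1 : (J3ᶜ).card + J3.card = Fintype.card ι := by
      rw [Finset.card_compl_add_card]
    have h2 : (univ.filter fun u : S₀ => (u : ℕ) % 3 = 1).card =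
        (S₀.filter fun p => p % 3 = 1).card := by
      rw [← Finset.card_map (Function.Embedding.subtype (· ∈ S₀))]
      congr 1
      ext x
      simp only [Finset.mem_map, Finset.mem_filter, Finset.mem_univ, true_and,
        Function.Embedding.coe_subtype]
      constructor
      · rintro ⟨u, hu, rfl⟩
        exact ⟨u.2, hu⟩
      · rintro ⟨h, h'⟩
        exact ⟨⟨x, h⟩, h', rfl⟩
    have h3 : (S₀.filter fun p => p % 3 = 1).card + (S₀.filter fun p => p % 3 = 2).card =
        S₀.card := by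
      rw [← Finset.card_filter_add_card_filter_not (s := S₀) (fun p => p % 3 = 1)]
      congr 2
      refine Finset.filter_congr fun x hx => ?_
      have h4 := hS₀ x hx
      have h5 : x % 3 ≠ 0 := by
        intro h0
        have := (Nat.prime_dvd_prime_iff_eq Nat.prime_three h4.1).1 (Nat.dvd_of_mod_eq_zero h0)
        omega
      omega
    rw [Fintype.card_coe, h2]
    omega
  -- the part with given labels
  have h1 : ∀ β : ι → Lc S₀ S₁, LN S₀ S₁ J3 JZ β →
      |(((Fintype.piFinset C).filter fun p => (fun i => lc f S₀ S₁ (p i)) = β ∧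
          Pn t f T0 b0 b (S₀ ∪ univ.image p)).card : ℝ) -
        cv3 * cP * (((Fintype.piFinset C).filter fun p =>
          (fun i => lc f S₀ S₁ (p i)) = β).card : ℝ)| ≤
      (ca + cb) * (((Fintype.piFinset C).filter fun p =>
        (fun i => lc f S₀ S₁ (p i)) = β).card : ℝ) + Re := by
    intro β hβ
    by_cases hemp : ((Fintype.piFinset C).filter fun p => (fun i => lc f S₀ S₁ (p i)) = β) = ∅
    · have he2 : ((Fintype.piFinset C).filter fun p => (fun i => lc f S₀ S₁ (p i)) = β ∧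
          Pn t f T0 b0 b (S₀ ∪ univ.image p)) = ∅ := by
        rw [← Finset.filter_filter, hemp, Finset.filter_empty]
      rw [he2, hemp]
      simpa using hR0
    obtain ⟨p₀, hp₀⟩ := Finset.nonempty_iff_ne_empty.2 hemp
    rw [Finset.mem_filter] at hp₀
    obtain ⟨hp₀, hp₀β⟩ := hp₀
    have hp₀m := hp₀
    rw [Fintype.mem_piFinset] at hp₀m
    set C' : ι → Finset ℕ := fun i => (C i).filter fun q => lc f S₀ S₁ q = β i with hC'
    have hpi : (Fintype.piFinset C).filter (fun p => (fun i => lc f S₀ S₁ (p i)) = β) =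
        Fintype.piFinset C' := by
      ext p
      simp only [Finset.mem_filter, Fintype.mem_piFinset, hC']
      constructor
      · rintro ⟨h2, h3⟩ i
        exact ⟨h2 i, congrFun h3 i⟩
      · intro h2
        exact ⟨fun i => (h2 i).1, funext fun i => (h2 i).2⟩
    -- the cubic part
    have h23 := hLA3 S₀ ι (univ.filter fun u : S₀ => (u : ℕ) % 3 = 1) J3 ks hcount hks
      (fun u v => lam u v) (fun u l => (β l).1.1 u) (fun k u => (β k).1.2 u)
      (by
        rintro v ⟨u, hu, hv⟩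
        have h3 := hβ.1.1 v ⟨u, (Finset.mem_filter.1 hu).2, hv⟩
        obtain ⟨l, hl, hlk⟩ := Finset.exists_mem_ne (lt_of_lt_of_le one_lt_two h3) ks
        exact ⟨l, hlk, (Finset.mem_filter.1 hl).2⟩)
      (fun w hw => hβ.1.2 w hw)
    -- the symbols of the primes of the private classes
    have hsw : ∀ k, ∀ r ∈ R, nr (p₀ k) r = nr r (p₀ k) := fun k r hr =>
      nr_symm (hpr p₀ hp₀ k).1.1 (hpr p₀ hp₀ k).1.2 (hR2 r hr).1.1 (hR2 r hr).2
    have hpriv : ∀ r ∈ R, ∀ k ∈ JR r, ∀ r' ∈ R, nr (p₀ k) r' = if r' = r then 1 else 0 := by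
      intro r hr k hk r' hr'
      have h3 := hJR r hr k hk (p₀ k) (hp₀m k)
      rw [hsw k r' hr']
      by_cases h4 : r' = r
      · rw [if_pos h4, h4]
        exact h3.1
      · rw [if_neg h4]
        exact h3.2 r' hr' h4
    have hdR : ∀ r ∈ R, ∀ k ∈ JR r, ∀ l, ∑ v ∈ T l, nr (p₀ k) v = if r ∈ T l then 1 else 0 := by
      intro r hr k hk l
      rw [Finset.sum_congr rfl fun v hv => hpriv r hr k hk v (hTR l hv), Finset.sum_ite_eq']
    have h2 := hLA (fun l => ↥(S₁ ∪ T l)) ι (fun l => univ.filter fun v : ↥(S₁ ∪ T l) =>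
      mk (v : ℕ) = 1) J2 hne2
      (fun l v w => nr v w) (fun l v k => nr v (p₀ k)) (fun l k v => nr (p₀ k) v)
      (fun l v => f v) (fun l k => f (p₀ k)) I K u Q hIJ hKJ hKI hun hU1 hQI
      (by
        intro i l hil
        have h3 : T i ≠ T l := fun h => hil (hTi h)
        obtain ⟨r, hr⟩ : ∃ r, ¬ (r ∈ T i ↔ r ∈ T l) := by
          by_contra h
          push Not at h
          exact h3 (Finset.ext h)
        have hrR : r ∈ R := by
          by_contra h
          exact hr ⟨fun h' => absurd (hTR i h') h, fun h' => absurd (hTR l h') h⟩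
        refine (hJRQ r hrR).trans (Finset.card_le_card fun k hk => ?_)
        rw [Finset.mem_filter]
        refine ⟨hJRI r hrR hk, ?_⟩
        rw [sum_two (hST i) (fun v => nr (p₀ k) v), sum_two (hST l) (fun v => nr (p₀ k) v),
          hdR r hrR k hk i, hdR r hrR k hk l]
        intro h
        have h4 := add_left_cancel (add_right_cancel h)
        by_cases h5 : r ∈ T i
        · rw [if_pos h5, if_neg (fun h6 => hr ⟨fun _ => h6, fun _ => h5⟩)] at h4
          exact one_ne_zero h4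
        · by_cases h6 : r ∈ T l
          · rw [if_neg h5, if_pos h6] at h4
            exact zero_ne_one h4
          · exact hr ⟨fun h => absurd h h5, fun h => absurd h h6⟩)
      (by
        intro l v hv w hw
        exact nr_symm (hSp l v v.2).1.1 (hSp l v v.2).1.2 (hSp l w w.2).1.1 (hSp l w w.2).2)
      (by
        intro l v hv k hk
        exact nr_symm (hSp l v v.2).1.1 (hSp l v v.2).1.2 (hpr p₀ hp₀ k).1.1 (hpr p₀ hp₀ k).2)
      (by
        rintro l w hw0 ⟨v, hv⟩
        have e1 : ∀ k, ∑ v : ↥(S₁ ∪ T l), w v * nr (p₀ k) v =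
            ∑ v : S₁, ez0 w v * nr (p₀ k) v + ∑ v ∈ T l, ez0 w v * nr (p₀ k) v := by
          intro k
          rw [← sum_two (hST l) (fun v => ez0 w v * nr (p₀ k) v)]
          exact Finset.sum_congr rfl fun v _ => by rw [ez0_coe]
        have hmk : ∀ v : ↥(S₁ ∪ T l), w v ≠ 0 → mk (v : ℕ) = 1 := by
          intro v hv
          by_contra h8
          exact hv (hw0 v fun hu' => h8 (Finset.mem_filter.1 hu').2)
        by_cases hex : ∃ v : S₁, ez0 w v ≠ 0
        · obtain ⟨v0, hv0⟩ := hex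
          have hv0' : w ⟨v0, Finset.mem_union_left _ v0.2⟩ ≠ 0 := by
            rw [← ez0_coe w ⟨v0, Finset.mem_union_left _ v0.2⟩]
            exact hv0
          obtain ⟨k, hk, hk2⟩ := hβ.2 (fun v => ez0 w v) ⟨v0, hmk _ hv0', hv0⟩
          refine ⟨k, hZI hk, ?_⟩
          rw [e1]
          have h3 : ∑ v ∈ T l, ez0 w v * nr (p₀ k) v = 0 := by
            refine Finset.sum_eq_zero fun v hv => ?_
            have h4 := ((hZ p₀ hp₀ k).2 hk).2 v (hTR l hv)
            rw [hsw k v (hTR l hv), h4, mul_zero]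
          rw [h3, add_zero]
          rw [Finset.sum_filter] at hk2
          intro h0
          apply hk2
          refine Eq.trans ?_ h0
          refine Finset.sum_congr rfl fun v _ => ?_
          have h5 : (β k).2.2.1 v = nr (p₀ k) v := by
            rw [← hp₀β]
            rfl
          split_ifs with h8
          · rw [h5]
          · have h6 : ez0 w v = 0 := by
              have h7 := ez0_coe w ⟨v, Finset.mem_union_left _ v.2⟩
              have h9 : w ⟨v, Finset.mem_union_left _ v.2⟩ = 0 := by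
                by_contra h
                exact h8 (hmk _ h)
              exact h7.trans h9
            rw [h6, zero_mul]
        · push Not at hex
          have hvT : (v : ℕ) ∈ T l := by
            rcases Finset.mem_union.1 v.2 with h | h
            · exfalso
              apply hv
              rw [← ez0_coe w v]
              exact hex ⟨v, h⟩
            · exact h
          have hvR := hTR l hvT
          obtain ⟨k, hk⟩ : (JR v).Nonempty := by
            rw [← Finset.card_pos]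
            exact lt_of_lt_of_le hQ (hJRQ v hvR)
          refine ⟨k, hJRI v hvR hk, ?_⟩
          rw [e1, Finset.sum_eq_zero (fun v _ => by rw [hex v, zero_mul]), zero_add,
            Finset.sum_congr rfl (fun v' hv' => by rw [hpriv v hvR k hk v' (hTR l hv')]),
            Finset.sum_eq_single_of_mem (v : ℕ) hvT (fun v' _ hv' => by
              rw [if_neg hv', mul_zero]), if_pos rfl, mul_one, ez0_coe]
          exact hv) b
    rw [← hcP] at h2
    have h2b : |((univ.filter fun α : prs J2 → ZMod 2 => ∀ l, (GdA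
      (univ.filter fun v : ↥(S₁ ∪ T l) => mk (v : ℕ) = 1) J2
      (fun v w : ↥(S₁ ∪ T l) => nr v w) (fun (v : ↥(S₁ ∪ T l)) k => nr v (p₀ k))
      (fun k (v : ↥(S₁ ∪ T l)) => nr (p₀ k) v)
      (Pool.Agent.Y703.CQ.ext α) (fun v : ↥(S₁ ∪ T l) => f v)
      (fun k => f (p₀ k)) ↔ b l = true)).card : ℝ) / 2 ^ (prs J2).card - cP| ≤ cb := by
      rw [hcb]
      exact h2
    obtain ⟨Q', hQ'⟩ : ∃ Q' : (prs J2 → ZMod 2) → Prop, Q' = fun α => ∀ l, (GdA
      (univ.filter fun v : ↥(S₁ ∪ T l) => mk (v : ℕ) = 1) J2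
      (fun v w : ↥(S₁ ∪ T l) => nr v w) (fun (v : ↥(S₁ ∪ T l)) k => nr v (p₀ k))
      (fun k (v : ↥(S₁ ∪ T l)) => nr (p₀ k) v)
      (Pool.Agent.Y703.CQ.ext α) (fun v : ↥(S₁ ∪ T l) => f v)
      (fun k => f (p₀ k)) ↔ b l = true) := ⟨_, rfl⟩
    have hcardQ : ∀ (P : (prs J2 → ZMod 2) → Prop) (I : DecidablePred P), P = Q' →
        (@Finset.filter _ P I univ).card = (univ.filter Q').card := by
      intro P I h
      subst h
      have e : I = fun a => Classical.propDecidable (P a) := Subsingleton.elim _ _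
      rw [e]
    rw [hcardQ _ _ hQ'.symm] at h2b
    set Q3 : (Pool.Agent.Y703.CX.prs J3 → ZMod 3) → Prop := fun α =>
      Pool.Agent.Y703.CX.GdA (univ.filter fun u : S₀ => (u : ℕ) % 3 = 1)
      J3 (fun u v : S₀ => lam u v) (fun (u : S₀) l => (β l).1.1 u)
      (fun k (u : S₀) => (β k).1.2 u) (Pool.Agent.Y703.CX.ext α) with hQ3
    have h3 := hEQ ι J3 J2 C' X κ hκ
      (fun i => (Finset.card_le_card (Finset.filter_subset _ _)).trans (hCX i))
      (HB_sub hHB fun i q => lc f S₀ S₁ q = β i)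
      (fun i l hil x hx y hy => by
        have hx' := (hC i x (Finset.mem_filter.1 hx).1).1
        have hy' := (hC l y (Finset.mem_filter.1 hy).1).1
        exact nr_symm hy'.1 hy'.2 hx'.1 (by have := hx'.2; omega))
      (fun α => Pool.Agent.L0h2.J.ev b0 (Q3 α)) Q'
    have h4 : ((Fintype.piFinset C).filter fun p => (fun i => lc f S₀ S₁ (p i)) = β ∧
        Pn t f T0 b0 b (S₀ ∪ univ.image p)) = ((Fintype.piFinset C').filter fun p =>
          Pool.Agent.L0h2.J.ev b0 (Q3 fun e => lam (p e.1.1) (p e.1.2)) ∧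
          Q' fun e => nr (p e.1.1) (p e.1.2)) := by
      rw [← hpi, Finset.filter_filter]
      refine Finset.filter_congr fun p hp => ?_
      refine and_congr_right fun hl => ?_
      have hpm := hp
      rw [Fintype.mem_piFinset] at hpm
      unfold Pn
      refine and_congr ?_ ?_
      · unfold Pool.Agent.L0h2.J.ev
        rw [Pool.Agent.Y911.CX.gd_iff (hinj p hp) (hd3 p hp) hne (hJ3 p hp)]
        subst hl
        exact Iff.rfl
      · rw [hQ']
        unfold Pq
        refine forall_congr' fun l => ?_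
        have hun' : symmDiff (S₀ ∪ univ.image p) (T0 l) = (S₁ ∪ T l) ∪ univ.image p := by
          rw [sym_eq (hTR0 l) (fun x hx => ?_), hS₁, hTd]
          rw [Finset.mem_image] at hx
          obtain ⟨i, -, rfl⟩ := hx
          exact hCR i _ (hpm i)
        rw [hun', Pool.Agent.R413.SQ.BOX.gd_iff f (hinj p hp) (hpr p hp) (hd l p hp) (hJ p hp)]
        have hlb : ∀ k, lb f S₁ (p k) = lb f S₁ (p₀ k) := fun k =>
          congrArg Prod.snd ((congrFun hl k).trans (congrFun hp₀β k).symm)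
        have g1 : ∀ k, ∀ v ∈ S₁ ∪ T l, nr v (p k) = nr v (p₀ k) := by
          intro k v hv
          rcases Finset.mem_union.1 hv with h | h
          · exact congrFun (congrArg (fun x : Lb S₁ => x.1) (hlb k)) ⟨v, h⟩
          · exact hCs k _ (hpm k) _ (hp₀m k) v (hTR l h)
        have g2 : ∀ k, ∀ v ∈ S₁ ∪ T l, nr (p k) v = nr (p₀ k) v := by
          intro k v hv
          rw [nr_symm (hpr p hp k).1.1 (hpr p hp k).1.2 (hSp l v hv).1.1 (hSp l v hv).2,
            nr_symm (hpr p₀ hp₀ k).1.1 (hpr p₀ hp₀ k).1.2 (hSp l v hv).1.1 (hSp l v hv).2]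
          exact g1 k v hv
        have g3 : (fun k => f (p k)) = fun k => f (p₀ k) := by
          funext k
          exact congrArg (fun x : Lb S₁ => x.2.2) (hlb k)
        have g4 : (fun (v : ↥(S₁ ∪ T l)) k => nr v (p k)) = fun (v : ↥(S₁ ∪ T l)) k =>
            nr v (p₀ k) := by
          funext v k
          exact g1 k v v.2
        have g5 : (fun k (v : ↥(S₁ ∪ T l)) => nr (p k) v) = fun k (v : ↥(S₁ ∪ T l)) =>
            nr (p₀ k) v := by
          funext k v
          exact g2 k v v.2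
        rw [g3, g4, g5]
    have h5 : (((Fintype.piFinset C').card : ℕ) : ℝ) = ∏ j, ((C' j).card : ℝ) := by
      rw [Fintype.card_piFinset]
      push_cast
      rfl
    rw [h4, hpi, h5]
    rw [Fintype.card_coe] at h23
    rw [← hca] at h23
    have hc3 : (Fintype.card (Pool.Agent.Y703.CX.prs J3 → ZMod 3) : ℝ) =
        3 ^ (Pool.Agent.Y703.CX.prs J3).card := by
      rw [Fintype.card_fun, ZMod.card, Fintype.card_coe]
      push_cast
      rfl
    have hc2 : (Fintype.card (prs J2 → ZMod 2) : ℝ) = 2 ^ (prs J2).card := by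
      rw [Fintype.card_fun, ZMod.card, Fintype.card_coe]
      push_cast
      rfl
    have e3 := (ev_card Q3 b0 c3 _ hc3 (by positivity)).trans_le h23
    rw [← hcv3] at e3
    set n : ℝ := (((Fintype.piFinset C').filter fun p =>
          Pool.Agent.L0h2.J.ev b0 (Q3 fun e => lam (p e.1.1) (p e.1.2)) ∧
          Q' fun e => nr (p e.1.1) (p e.1.2)).card : ℝ) with hn
    set q3 : ℝ := ((univ.filter fun α => Pool.Agent.L0h2.J.ev b0 (Q3 α)).card : ℝ) /
      3 ^ (Pool.Agent.Y703.CX.prs J3).card with hq3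
    set q2 : ℝ := ((univ.filter Q').card : ℝ) / 2 ^ (prs J2).card with hq2
    have g3 : |q3 - cv3| ≤ ca := e3
    have g2 : |q2 - cP| ≤ cb := h2b
    have q20 : 0 ≤ q2 := by positivity
    have q21 : q2 ≤ 1 := by
      rw [hq2, div_le_one (by positivity), ← hc2]
      exact_mod_cast Finset.card_le_univ _
    have v30 : 0 ≤ cv3 := by
      rw [hcv3]
      exact Pool.Agent.L0h2.J.BOX.cv_nonneg k3.2.1 k3.2.2.1
    have v31 : cv3 ≤ 1 := by
      rw [hcv3]
      exact Pool.Agent.L0h2.J.BOX.cv_le_one k3.2.1 k3.2.2.1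
    have g4 : |q3 * q2 - cv3 * cP| ≤ ca + cb := by
      have e : q3 * q2 - cv3 * cP = (q3 - cv3) * q2 + cv3 * (q2 - cP) := by
        ring
      rw [e]
      refine (abs_add_le _ _).trans ?_
      rw [abs_mul, abs_mul, abs_of_nonneg q20, abs_of_nonneg v30]
      have a1 : |q3 - cv3| * q2 ≤ ca * 1 := mul_le_mul g3 q21 q20 hca0
      have a2 : cv3 * |q2 - cP| ≤ 1 * cb := mul_le_mul v31 g2 (abs_nonneg _) (by norm_num)
      linarith
    set P : ℝ := ∏ j, ((C' j).card : ℝ) with hP
    have hP0 : 0 ≤ P := Finset.prod_nonneg fun j _ => by positivity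
    have h6 : |n - cv3 * cP * P| ≤ |n - q3 * q2 * P| + |q3 * q2 - cv3 * cP| * P := by
      have h7 : n - cv3 * cP * P = (n - q3 * q2 * P) + (q3 * q2 - cv3 * cP) * P := by ring
      have h8 : |(q3 * q2 - cv3 * cP) * P| = |q3 * q2 - cv3 * cP| * P := by
        rw [abs_mul, abs_of_nonneg hP0]
      rw [h7, ← h8]
      exact abs_add_le _ _
    have h7 : |q3 * q2 - cv3 * cP| * P ≤ (ca + cb) * P := mul_le_mul_of_nonneg_right g4 hP0
    have h8 : |n - q3 * q2 * P| ≤ Re := h3
    linarith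
  -- sum over the labels
  set LL := univ.filter (fun β : ι → Lc S₀ S₁ => LN S₀ S₁ J3 JZ β) with hLL
  have hnd : ∀ p ∈ Fintype.piFinset C, (Nn R S₀ (univ.image p) ↔
      LN S₀ S₁ J3 JZ (fun i => lc f S₀ S₁ (p i))) := by
    intro p hp
    unfold Nn LN
    rw [Pool.Agent.Y911.CX.nd_iff (hinj p hp) (hJ3 p hp),
      Pool.Agent.L0h2.K.BOX.nz_iff f (hZ p hp), ← hS₁]
    exact Iff.rfl
  have hfib : ∀ T : (ι → ℕ) → Prop,
      (((Fintype.piFinset C).filter fun p => Nn R S₀ (univ.image p) ∧ T p).card : ℝ) =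
      ∑ β ∈ LL, (((Fintype.piFinset C).filter fun p =>
        (fun i => lc f S₀ S₁ (p i)) = β ∧ T p).card : ℝ) := by
    intro T
    rw [Finset.card_eq_sum_card_fiberwise (f := fun (p : ι → ℕ) (i : ι) => lc f S₀ S₁ (p i))
      (t := LL) (by
        intro p hp
        rw [Finset.mem_coe, Finset.mem_filter] at hp
        rw [Finset.mem_coe, hLL, Finset.mem_filter]
        exact ⟨Finset.mem_univ _, (hnd p hp.1).1 hp.2.1⟩)]
    push_cast
    refine Finset.sum_congr rfl fun β hβ => ?_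
    rw [hLL, Finset.mem_filter] at hβ
    congr 2
    ext p
    simp only [Finset.mem_filter]
    constructor
    · rintro ⟨⟨h3, h4, h4'⟩, h5⟩
      exact ⟨h3, h5, h4'⟩
    · rintro ⟨h3, h4, h5⟩
      refine ⟨⟨h3, ?_, h5⟩, h4⟩
      rw [hnd p h3, h4]
      exact hβ.2
  have hf1 := hfib fun p => Pn t f T0 b0 b (S₀ ∪ univ.image p)
  have hf2 := hfib fun _ => True
  simp only [and_true] at hf2
  rw [hf1, hf2, Finset.mul_sum, ← Finset.sum_sub_distrib]
  refine (Finset.abs_sum_le_sum_abs _ _).trans ?_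
  refine (Finset.sum_le_sum fun β hβ => h1 β (Finset.mem_filter.1 hβ).2).trans ?_
  rw [Finset.sum_add_distrib, ← Finset.mul_sum, Finset.sum_const, nsmul_eq_mul]
  have h5 : ((LL.card : ℕ) : ℝ) ≤ 3 ^ (2 * S₀.card * Fintype.card ι) *
      2 ^ ((2 * S₀.card + 1) * Fintype.card ι) := by
    have h6 : LL.card ≤ Fintype.card (ι → Lc S₀ S₁) := Finset.card_le_univ _
    have h7 : Fintype.card (ι → Lc S₀ S₁) = 3 ^ (2 * S₀.card * Fintype.card ι) *
        2 ^ ((2 * S₁.card + 1) * Fintype.card ι) := by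
      rw [Fintype.card_fun, Fintype.card_prod, Fintype.card_prod, Fintype.card_prod,
        Fintype.card_prod, Fintype.card_fun, Fintype.card_fun, ZMod.card, ZMod.card,
        Fintype.card_coe, Fintype.card_coe, mul_pow, ← pow_add, ← pow_succ, ← pow_add, ← pow_mul,
        ← pow_mul]
      congr 2
      · ring
      · ring
    rw [h7] at h6
    have h8 : 2 ^ ((2 * S₁.card + 1) * Fintype.card ι) ≤ 2 ^ ((2 * S₀.card + 1) * Fintype.card ι) :=
      Nat.pow_le_pow_right (by norm_num) (Nat.mul_le_mul_right _ (by omega))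
    have h9 := h6.trans (Nat.mul_le_mul_left _ h8)
    exact_mod_cast h9
  have h6 := mul_le_mul_of_nonneg_right h5 hR0
  have h7 : (3 : ℝ) ^ (2 * S₀.card * Fintype.card ι + (Pool.Agent.Y703.CX.prs J3).card) *
      2 ^ ((2 * S₀.card + 1) * Fintype.card ι + (prs J2).card) *
      (κ * ∏ j, (X j : ℝ)) = 3 ^ (2 * S₀.card * Fintype.card ι) *
      2 ^ ((2 * S₀.card + 1) * Fintype.card ι) * Re := by
    rw [hRe, pow_add, pow_add]
    ring
  rw [h7]
  linarith

end Pool.Agent.L0h2.N.BOX
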