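import Pool.Agent.L0h2.N.Stm
import Pool.Agent.L0h2.K.FEW
import Pool.Agent.L0h2.J.FEW

/-!
# Joint law of a cubic twist and several quadratic twists: few sets have few large primes in a class
-/

set_option autoImplicit false
set_option linter.unusedVariables false

open scoped Classical

namespace Pool.Agent.L0h2.N.FEW

open Finset Filter
open Pool.Agent.Y703.CX (sm la eL zz S_SIE)
open Pool.Agent.L0h2.J (SS)
open Pool.Agent.L0h2.J.FEW (SS_mem LL mem_LL LL_sub mem_LL_of)
open Pool.Agent.L0h2.K.FEW (part1 wt wt_pos)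
open Pool.Agent.Y495.CX.Few (PN euler prod_pos' le_of_mem_prod mert eL_tendsto log_small zz_ge
  loglog_zz rpow_eq)

/-- the logarithmic density of a family -/
lemma LL_sum (X z q c : ℕ) (hc : ∀ p, p % q = c → p % 12 = 1) (Q : Finset ℕ → Prop) (M Λ : ℝ)
    (hM : 0 ≤ M) (hΛ : 1 ≤ Λ) (h1w : ∀ S ∈ LL X Q, 1 ≤ M * ∏ p ∈ S, wt z q c p) :
    ∑ S ∈ LL X Q, (1 : ℝ) / ((∏ p ∈ S, p : ℕ) : ℝ) ≤ M * Λ *
      Real.exp (∑ p ∈ PN z, (1 : ℝ) / p + ∑ p ∈ (PN X).filter (fun p => p % 12 = 1), (1 : ℝ) / p -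
        3 / 4 * ∑ p ∈ (PN X).filter (fun p => p % q = c), (1 : ℝ) / p +
        1 / Λ * ∑ p ∈ PN X, (1 : ℝ) / p) := by
  have Λ0 : 0 < Λ := by linarith
  have hL1 : 1 / Λ ≤ 1 := by rw [div_le_one Λ0]; exact hΛ
  have hL0 : 0 ≤ 1 / Λ := by positivity
  set v : ℕ → ℝ := fun p => wt z q c p * (if ¬ p ≤ z ∧ p % 3 = 2 then 1 / Λ else 1) with hv
  have hv0 : ∀ p, 0 ≤ v p := by
    intro p
    refine mul_nonneg (wt_pos _ _ _ _) ?_
    split_ifs
    · exact hL0
    · exact zero_le_one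
  have h1v : ∀ S ∈ LL X Q, 1 ≤ M * Λ * ∏ p ∈ S, v p := by
    intro S hS
    have h2 := h1w S hS
    have h3 : (S.filter fun p => ¬ p ≤ z ∧ p % 3 = 2).card ≤ 1 := by
      refine (card_le_card ?_).trans (mem_LL.1 hS).2.2.2.1
      intro p hp
      rw [mem_filter] at hp ⊢
      exact ⟨hp.1, hp.2.2⟩
    have h4 : (1 / Λ) ^ 1 ≤ (1 / Λ) ^ (S.filter fun p => ¬ p ≤ z ∧ p % 3 = 2).card :=
      pow_le_pow_of_le_one hL0 hL1 h3
    have h5 : ∏ p ∈ S, v p = (∏ p ∈ S, wt z q c p) *
        (1 / Λ) ^ (S.filter fun p => ¬ p ≤ z ∧ p % 3 = 2).card := by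
      rw [hv, prod_mul_distrib, ← prod_filter, prod_const]
    rw [h5]
    rw [pow_one] at h4
    have h6 : 0 ≤ ∏ p ∈ S, wt z q c p := prod_nonneg fun p _ => wt_pos _ _ _ _
    calc (1 : ℝ) ≤ M * ∏ p ∈ S, wt z q c p := h2
      _ = (M * ∏ p ∈ S, wt z q c p) * (Λ * (1 / Λ)) := by
          rw [mul_one_div_cancel Λ0.ne', mul_one]
      _ ≤ (M * ∏ p ∈ S, wt z q c p) *
          (Λ * (1 / Λ) ^ (S.filter fun p => ¬ p ≤ z ∧ p % 3 = 2).card) :=
          mul_le_mul_of_nonneg_left (mul_le_mul_of_nonneg_left h4 Λ0.le) (mul_nonneg hM h6)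
      _ = _ := by ring
  have h1 : ∀ S ∈ LL X Q, (1 : ℝ) / ((∏ p ∈ S, p : ℕ) : ℝ) ≤
      (M * Λ) * ∏ p ∈ S, (v p * (1 / p)) := by
    intro S hS
    have h2 := h1v S hS
    have h3 : (0 : ℝ) ≤ ∏ p ∈ S, (1 : ℝ) / p := prod_nonneg fun p _ => by positivity
    have h4 : (1 : ℝ) / ((∏ p ∈ S, p : ℕ) : ℝ) = ∏ p ∈ S, (1 : ℝ) / p := by
      rw [prod_div_distrib, prod_const_one]
      push_cast
      rfl
    rw [h4, prod_mul_distrib]
    calc ∏ p ∈ S, (1 : ℝ) / p = 1 * ∏ p ∈ S, (1 : ℝ) / p := (one_mul _).symm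
      _ ≤ (M * Λ * ∏ p ∈ S, v p) * ∏ p ∈ S, (1 : ℝ) / p :=
          mul_le_mul_of_nonneg_right h2 h3
      _ = _ := by ring
  refine (sum_le_sum h1).trans ?_
  rw [← mul_sum]
  apply mul_le_mul_of_nonneg_left _ (mul_nonneg hM Λ0.le)
  have hnn : ∀ p : ℕ, 0 ≤ v p * (1 / (p : ℝ)) := fun p => mul_nonneg (hv0 p) (by positivity)
  have h5 : ∑ S ∈ LL X Q, ∏ p ∈ S, (v p * (1 / (p : ℝ))) ≤
      ∑ S ∈ ((PN X).filter fun p => p % 4 = 1).powerset, ∏ p ∈ S, (v p * (1 / (p : ℝ))) := by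
    refine sum_le_sum_of_subset_of_nonneg ?_ fun S _ _ => prod_nonneg fun p _ => hnn p
    intro S hS
    rw [mem_LL] at hS
    rw [mem_powerset]
    intro p hp
    have h6 := (hS.2.1 p hp).1
    rw [mem_filter, mem_filter, mem_Icc]
    exact ⟨⟨⟨h6.one_lt.le, le_of_mem_prod (fun p hp => (hS.2.1 p hp).1) hS.2.2.1 hp⟩, h6⟩,
      (hS.2.1 p hp).2⟩
  refine h5.trans ((euler _ _ fun p _ => hnn p).trans ?_)
  apply Real.exp_le_exp.2
  have hA : ∀ p ∈ (PN X).filter (fun p => p % 4 = 1), v p * (1 / (p : ℝ)) ≤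
      (if p ≤ z then (1 : ℝ) / p else 0) + (if p % 12 = 1 then (1 : ℝ) / p else 0) -
        3 / 4 * (if p % q = c then (1 : ℝ) / p else 0) + 1 / Λ * (1 / (p : ℝ)) := by
    intro p hp
    have hp0 : (0 : ℝ) ≤ 1 / p := by positivity
    have e3 : (0 : ℝ) ≤ 1 / Λ * (1 / (p : ℝ)) := mul_nonneg hL0 hp0
    have hwz : wt z q c p ≤ 1 := by
      unfold Pool.Agent.L0h2.K.FEW.wt
      split_ifs <;> norm_num
    -- the class is contained in the class of one
    have hcl : (if p % q = c then (1 : ℝ) / p else 0) ≤ (if p % 12 = 1 then (1 : ℝ) / p else 0) := by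
      by_cases h : p % q = c
      · rw [if_pos h, if_pos (hc p h)]
      · rw [if_neg h]
        split_ifs
        · exact hp0
        · exact le_refl _
    have hcl0 : 0 ≤ (if p % q = c then (1 : ℝ) / p else 0) := by
      split_ifs
      · exact hp0
      · exact le_refl _
    by_cases hpz : p ≤ z
    · rw [if_pos hpz]
      have h7 : v p ≤ 1 := by
        rw [hv]
        simp only
        rw [if_neg (fun h => h.1 hpz), mul_one]
        exact hwz
      have := mul_le_mul_of_nonneg_right h7 hp0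
      linarith
    · rw [if_neg hpz]
      by_cases h2 : p % 3 = 2
      · have h7 : v p ≤ 1 / Λ := by
          rw [hv]
          simp only
          rw [if_pos ⟨hpz, h2⟩]
          calc wt z q c p * (1 / Λ) ≤ 1 * (1 / Λ) := mul_le_mul_of_nonneg_right hwz hL0
            _ = _ := one_mul _
        have := mul_le_mul_of_nonneg_right h7 hp0
        linarith
      · have h7 : v p = wt z q c p := by
          rw [hv]
          simp only
          rw [if_neg (fun h => h2 h.2), mul_one]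
        rw [h7]
        rw [mem_filter, mem_filter] at hp
        have hp3 : p % 3 ≠ 0 := by
          intro h0
          have h8 := (Nat.prime_dvd_prime_iff_eq Nat.prime_three hp.1.2).1
            (Nat.dvd_of_mod_eq_zero h0)
          omega
        have h12 : p % 12 = 1 := by omega
        rw [if_pos h12]
        unfold Pool.Agent.L0h2.K.FEW.wt
        by_cases hpc : p % q = c
        · rw [if_pos ⟨hpz, hpc⟩, if_pos hpc]
          linarith
        · rw [if_neg (fun h => hpc h.2), if_neg hpc]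
          linarith
  refine (sum_le_sum hA).trans ?_
  rw [sum_add_distrib, sum_sub_distrib, sum_add_distrib, ← mul_sum, ← mul_sum, ← sum_filter,
    ← sum_filter, ← sum_filter]
  have h7 : ∑ p ∈ ((PN X).filter (fun p => p % 4 = 1)).filter (fun p => p ≤ z), (1 : ℝ) / p ≤
      ∑ p ∈ PN z, (1 : ℝ) / p := by
    refine sum_le_sum_of_subset_of_nonneg ?_ fun p _ _ => by positivity
    intro p hp
    rw [mem_filter, mem_filter, mem_filter, mem_Icc] at hp
    rw [mem_filter, mem_Icc]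
    exact ⟨⟨hp.1.1.1.1, hp.2⟩, hp.1.1.2⟩
  have h8 : ((PN X).filter (fun p => p % 4 = 1)).filter (fun p => p % q = c) =
      (PN X).filter (fun p => p % q = c) := by
    ext p
    constructor
    · intro h
      have h1 := mem_filter.1 h
      exact mem_filter.2 ⟨(mem_filter.1 h1.1).1, h1.2⟩
    · intro h
      have h1 := mem_filter.1 h
      exact mem_filter.2 ⟨mem_filter.2 ⟨h1.1, by
        have := hc p h1.2
        omega⟩, h1.2⟩
  have h9 : ∑ p ∈ ((PN X).filter (fun p => p % 4 = 1)).filter (fun p => p % 12 = 1), (1 : ℝ) / p ≤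
      ∑ p ∈ (PN X).filter (fun p => p % 12 = 1), (1 : ℝ) / p := by
    refine sum_le_sum_of_subset_of_nonneg ?_ fun p _ _ => by positivity
    exact filter_subset_filter _ (filter_subset _ _)
  have h10 : ∑ p ∈ (PN X).filter (fun p => p % 4 = 1), (1 : ℝ) / p ≤ ∑ p ∈ PN X, (1 : ℝ) / p :=
    sum_le_sum_of_subset_of_nonneg (filter_subset _ _) fun p _ _ => by positivity
  have h11 := mul_le_mul_of_nonneg_left h10 hL0
  rw [h8]
  linarith

/-- sets with few large primes in a class -/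
lemma part2 (hs : S_SIE) {R : Finset ℕ} (hR : ∀ r ∈ R, r.Prime ∧ r % 4 = 1) {c : ℕ}
    (hcq : c < qn R) (hcop : Nat.Coprime c (qn R)) (hc4 : c % 4 = 1) (hc3 : c % 3 = 1) :
    ∃ C : ℝ, 0 ≤ C ∧ ∀ᶠ X : ℕ in atTop,
    ((LL X fun S => ((la (zz X) S).filter fun p => p % qn R = c).card ≤
      ⌊eL X / (4 * qn R)⌋₊).card : ℝ) ≤ C * X * Real.exp ((-(3 / 4) - etn R) * eL X) := by
  have hq0 : (0 : ℝ) < qn R := by exact_mod_cast qn_pos hR
  obtain ⟨C, hC0, hC⟩ := mert
  obtain ⟨C₁, hC₁0, hC₁⟩ := Pool.Agent.Y405.CQ.mertens_ap 12 (by norm_num) 1 (by norm_num) (by norm_num)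
  obtain ⟨C₂, hC₂0, hC₂⟩ := Pool.Agent.Y405.CQ.mertens_ap (qn R) (qn_pos hR) c hcq hcop
  obtain ⟨C', hC'1, hC'⟩ := hs
  have ht : Nat.totient 12 = 4 := by decide
  have hc : ∀ p, p % qn R = c → p % 12 = 1 := fun p hp => by
    have h1 : p % 4 = 1 := by rw [← mod4 R p, hp, hc4]
    have h2 : p % 3 = 1 := by rw [← mod3 R p, hp, hc3]
    omega
  have hl4 : Real.log 4 ≤ 1.4 := by
    have h1 : (4 : ℝ) = 2 ^ 2 := by norm_num
    rw [h1, Real.log_pow]
    have := Real.log_two_lt_d9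
    push_cast
    linarith
  have hphi : (0 : ℝ) < Nat.totient (qn R) := by
    exact_mod_cast Nat.totient_pos.2 (qn_pos hR)
  have hphi2 : 1 / (qn R : ℝ) ≤ 1 / (Nat.totient (qn R) : ℝ) :=
    one_div_le_one_div_of_le hphi (by exact_mod_cast Nat.totient_le _)
  obtain ⟨ι, hι⟩ : ∃ ι : ℝ, ι = 1 / (qn R : ℝ) := ⟨_, rfl⟩
  have hι0 : 0 < ι := by rw [hι]; positivity
  rw [← hι] at hphi2
  refine ⟨C' * Real.exp (2 * C + C₁ + 3 / 4 * C₂ + 1), by positivity, ?_⟩
  filter_upwards [eL_tendsto.eventually (log_small 4 (ι / 4) (by positivity)),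
    eL_tendsto.eventually (eventually_ge_atTop 2), eventually_ge_atTop 3] with X h1 h2 h3
  set l := eL X with hl
  have h4 := hC (zz X) (zz_ge h2)
  have h5 := loglog_zz h2
  have h6 := (abs_le.1 (hC₁ X h3)).2
  have h6' := (abs_le.1 (hC₂ X h3)).1
  have h6'' := hC X h3
  rw [ht] at h6
  rw [← hl] at h5
  have e6 : (Icc 1 X).filter (fun p => p.Prime ∧ p % 12 = 1) =
      (PN X).filter (fun p => p % 12 = 1) := by
    unfold PN
    rw [filter_filter]
  have e6' : (Icc 1 X).filter (fun p => p.Prime ∧ p % qn R = c) =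
      (PN X).filter (fun p => p % qn R = c) := by
    unfold PN
    rw [filter_filter]
  rw [e6] at h6
  rw [e6'] at h6'
  push_cast at h6
  change _ - 1 / 4 * l ≤ C₁ at h6
  change _ ≤ _ - 1 / (Nat.totient (qn R) : ℝ) * l at h6'
  change _ ≤ l + C at h6''
  obtain ⟨Q, hQd⟩ : ∃ Q : Finset ℕ → Prop, Q = fun S =>
    ((la (zz X) S).filter fun p => p % qn R = c).card ≤ ⌊l / (4 * qn R)⌋₊ := ⟨_, rfl⟩
  have hQ : ∀ S, Q S → ∀ T, T ⊆ S → Q T := by
    intro S h T hT
    rw [hQd] at h ⊢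
    refine (card_le_card (filter_subset_filter _ ?_)).trans h
    unfold la
    exact filter_subset_filter _ hT
  rw [← hQd]
  have h7 := hC' X (LL X Q) (by omega)
    (fun S hS => ⟨fun p hp => ((mem_LL.1 hS).2.1 p hp).1, (mem_LL.1 hS).2.2.1⟩)
    (fun S hS T hT => LL_sub hQ hS hT)
  have h8 := LL_sum X (zz X) (qn R) c hc Q (Real.exp (Real.log 4 / (4 * qn R) * l)) l
    (Real.exp_pos _).le (by linarith) (by
      intro S hS
      rw [mem_LL, hQd] at hS
      unfold Pool.Agent.L0h2.K.FEW.wt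
      rw [← prod_filter, prod_const]
      have g1 : (S.filter fun p => ¬ p ≤ zz X ∧ p % qn R = c).card ≤ ⌊l / (4 * qn R)⌋₊ := by
        refine (card_le_card ?_).trans hS.2.2.2.2
        intro p hp
        rw [mem_filter] at hp
        unfold la
        rw [mem_filter, mem_filter]
        exact ⟨⟨hp.1, hp.2.1⟩, hp.2.2⟩
      have g2 : (1 / 4 : ℝ) ^ ⌊l / (4 * qn R)⌋₊ ≤
          (1 / 4 : ℝ) ^ (S.filter fun p => ¬ p ≤ zz X ∧ p % qn R = c).card :=
        pow_le_pow_of_le_one (by norm_num) (by norm_num) g1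
      have g3 : Real.exp (-(Real.log 4 / (4 * qn R) * l)) ≤ (1 / 4 : ℝ) ^ ⌊l / (4 * qn R)⌋₊ := by
        have e1 : (1 / 4 : ℝ) = Real.exp (-Real.log 4) := by
          rw [Real.exp_neg, Real.exp_log (by norm_num)]
          norm_num
        rw [e1, ← Real.exp_nat_mul]
        apply Real.exp_le_exp.2
        have e2 : ((⌊l / (4 * qn R)⌋₊ : ℕ) : ℝ) ≤ l / (4 * qn R) :=
          Nat.floor_le (div_nonneg (by linarith) (by positivity))
        have e4 : 0 ≤ Real.log 4 := Real.log_nonneg (by norm_num)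
        have e5 := mul_le_mul_of_nonneg_right e2 e4
        have e7 : l / (4 * qn R) * Real.log 4 = Real.log 4 / (4 * qn R) * l := by ring
        rw [e7] at e5
        linarith
      calc (1 : ℝ) = Real.exp (Real.log 4 / (4 * qn R) * l) *
            Real.exp (-(Real.log 4 / (4 * qn R) * l)) := by
            rw [← Real.exp_add, add_neg_cancel, Real.exp_zero]
        _ ≤ _ := mul_le_mul_of_nonneg_left (g3.trans g2) (Real.exp_pos _).le)
  have hlX : Real.log X = Real.exp l := by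
    have := rpow_eq (X := X) h2 1
    rwa [Real.rpow_one, one_mul] at this
  rw [hlX] at h7
  have h11 : 1 / l * ∑ p ∈ PN X, (1 : ℝ) / p ≤ 1 + C := by
    have e1 : 1 / l * ∑ p ∈ PN X, (1 : ℝ) / p ≤ 1 / l * (l + C) :=
      mul_le_mul_of_nonneg_left h6'' (by positivity)
    have e2 : 1 / l * (l + C) ≤ 1 + C := by
      rw [mul_add, one_div_mul_cancel (by linarith)]
      have : 1 / l ≤ 1 := by rw [div_le_one (by linarith)]; linarith
      have := mul_le_mul_of_nonneg_right this hC0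
      linarith
    exact e1.trans e2
  have hle : l = Real.exp (Real.log l) := (Real.exp_log (by linarith)).symm
  have h12 : Real.exp (Real.log 4 / (4 * qn R) * l) * l * Real.exp (∑ p ∈ PN (zz X), (1 : ℝ) / p +
      ∑ p ∈ (PN X).filter (fun p => p % 12 = 1), (1 : ℝ) / p -
        3 / 4 * ∑ p ∈ (PN X).filter (fun p => p % qn R = c), (1 : ℝ) / p +
        1 / l * ∑ p ∈ PN X, (1 : ℝ) / p) ≤
      Real.exp (2 * C + C₁ + 3 / 4 * C₂ + 1) * Real.exp ((-(3 / 4) - etn R + 1) * l) := by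
    have hle2 : Real.exp (Real.log 4 / (4 * qn R) * l) * l =
        Real.exp (Real.log 4 / (4 * qn R) * l + Real.log l) := by
      rw [Real.exp_add, ← hle]
    rw [hle2, ← Real.exp_add, ← Real.exp_add]
    apply Real.exp_le_exp.2
    have e1 : ∑ p ∈ PN (zz X), (1 : ℝ) / p ≤ 3 * Real.log l + C := by linarith
    have e2 : Real.log 4 / (4 * qn R) * l ≤ 0.35 * ι * l := by
      refine mul_le_mul_of_nonneg_right ?_ (by linarith)
      have : Real.log 4 / (4 * qn R) = Real.log 4 / 4 * ι := by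
        rw [hι]
        field_simp
      rw [this]
      refine mul_le_mul_of_nonneg_right ?_ hι0.le
      linarith
    have e3 : ι * l ≤ 1 / (Nat.totient (qn R) : ℝ) * l :=
      mul_le_mul_of_nonneg_right hphi2 (by linarith)
    have e4 : etn R = ι / 8 := by
      unfold etn
      rw [hι]
      field_simp
    rw [e4]
    have e5 : 0 < ι * l := mul_pos hι0 (by linarith)
    nlinarith
  have h13 : ((LL X Q).card : ℝ) * Real.exp l ≤
      C' * X * (Real.exp (2 * C + C₁ + 3 / 4 * C₂ + 1) *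
        Real.exp ((-(3 / 4) - etn R + 1) * l)) := by
    refine h7.trans ?_
    exact mul_le_mul_of_nonneg_left (h8.trans h12) (by positivity)
  have h14 : (C' * Real.exp (2 * C + C₁ + 3 / 4 * C₂ + 1) * X *
      Real.exp ((-(3 / 4) - etn R) * l)) *
      Real.exp l = C' * X * (Real.exp (2 * C + C₁ + 3 / 4 * C₂ + 1) *
        Real.exp ((-(3 / 4) - etn R + 1) * l)) := by
    have : Real.exp ((-(3 / 4) - etn R + 1) * l) =
        Real.exp ((-(3 / 4) - etn R) * l) * Real.exp l := by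
      rw [← Real.exp_add]
      congr 1
      ring
    rw [this]
    ring
  rw [← h14] at h13
  exact le_of_mul_le_mul_right h13 (Real.exp_pos _)

/-- the class of project J is contained in the class of project SQ -/
theorem SS_sub (X : ℕ) : SS X ⊆ Pool.Agent.R413.SQ.SS ∅ ∅ X := by
  intro S hS
  obtain ⟨h1, _, h3⟩ := SS_mem hS
  have h6 := Pool.Agent.L0h2.K.of_SR (R := ∅) h1 h3 (disjoint_empty_right _)
  unfold Pool.Agent.L0h2.K.SR at h6
  exact (mem_filter.1 h6).1

theorem t_FEWn : S_FEWn := by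
  intro hs R hR c κ V hcq hcop hc4 hc3 hκ
  have hκ0 : (0 : ℝ) < κ := by exact_mod_cast hκ
  have hq1 : (252 : ℝ) ≤ qn R := by
    have h1 : 1 ≤ ∏ r ∈ R, r := prod_pos fun r hr => (hR r hr).1.pos
    have h2 : 252 ≤ qn R := by
      unfold qn
      omega
    exact_mod_cast h2
  have hq0 : (0 : ℝ) < qn R := by linarith
  obtain ⟨C₁, hC₁, h1⟩ := part1 (8 * κ * qn R) (by positivity)
  obtain ⟨C₂, hC₂, h2⟩ := part2 hs hR hcq hcop hc4 hc3
  have h4 := (h1.and h2).and
    (eL_tendsto.eventually (eventually_ge_atTop (max 2 (8 * qn R * (V : ℝ)))))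
  rw [eventually_atTop] at h4
  obtain ⟨X₀, hX₀⟩ := h4
  refine ⟨C₁ + C₂, X₀, fun X hX => ?_⟩
  obtain ⟨⟨h5, h6⟩, h8⟩ := hX₀ X hX
  have h9 : 2 ≤ eL X := (le_max_left _ _).trans h8
  have h10 : 8 * qn R * (V : ℝ) ≤ eL X := (le_max_right _ _).trans h8
  rw [rpow_eq h9]
  have h11 : ((SS X).filter fun S => ((la (zz X) S).filter fun p => p % qn R = c).card ≤
      κ * (sm (zz X) S).card + V) ⊆
      ((Pool.Agent.R413.SQ.SS ∅ ∅ X).filter fun S =>
        eL X / (8 * κ * qn R) < ((sm (zz X) S).card : ℝ)) ∪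
        (LL X fun S => ((la (zz X) S).filter fun p => p % qn R = c).card ≤
          ⌊eL X / (4 * qn R)⌋₊) := by
    intro S hS
    rw [mem_filter] at hS
    rw [mem_union, mem_filter]
    by_cases hc : eL X / (8 * κ * qn R) < ((sm (zz X) S).card : ℝ)
    · exact Or.inl ⟨SS_sub X hS.1, hc⟩
    · right
      rw [not_lt] at hc
      refine mem_LL_of hS.1 ?_
      apply Nat.le_floor
      have h12 : ((((la (zz X) S).filter fun p => p % qn R = c).card : ℕ) : ℝ) ≤
          κ * ((sm (zz X) S).card : ℝ) + V := by exact_mod_cast hS.2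
      have h13 : (V : ℝ) ≤ eL X / (8 * qn R) := by
        rw [le_div_iff₀ (by positivity)]
        linarith
      have h14 : κ * (eL X / (8 * κ * qn R)) + eL X / (8 * qn R) = eL X / (4 * qn R) := by
        field_simp
        norm_num
      have h15 : (κ : ℝ) * ((sm (zz X) S).card : ℝ) ≤ κ * (eL X / (8 * κ * qn R)) :=
        mul_le_mul_of_nonneg_left hc hκ0.le
      linarith
  have h12 : (((SS X).filter fun S => ((la (zz X) S).filter fun p => p % qn R = c).card ≤
      κ * (sm (zz X) S).card + V).card : ℝ) ≤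
      (((Pool.Agent.R413.SQ.SS ∅ ∅ X).filter fun S =>
        eL X / (8 * κ * qn R) < ((sm (zz X) S).card : ℝ)).card : ℝ) +
      ((LL X fun S => ((la (zz X) S).filter fun p => p % qn R = c).card ≤
        ⌊eL X / (4 * qn R)⌋₊).card : ℝ) := by
    exact_mod_cast (card_le_card h11).trans (card_union_le _ _)
  have he : etn R ≤ 1 / 20 := by
    unfold etn
    rw [div_le_iff₀ (by positivity)]
    linarith
  have h13 : C₁ * X * Real.exp (-(4 / 5) * eL X) ≤
      C₁ * X * Real.exp ((-(3 / 4) - etn R) * eL X) := by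
    apply mul_le_mul_of_nonneg_left _ (by positivity)
    apply Real.exp_le_exp.2
    apply mul_le_mul_of_nonneg_right _ (by linarith)
    linarith
  refine h12.trans ((add_le_add (h5.trans h13) h6).trans (le_of_eq ?_))
  ring

end Pool.Agent.L0h2.N.FEW
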