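import Pool.Agent.L0h2.N.Asy
import Pool.Agent.L0h2.N.BOX
import Pool.Agent.L0h2.N.KEY
import Pool.Agent.L0h2.N.BAD
import Pool.Agent.L0h2.N.FEW
import Pool.Agent.L0h2.N.Cls
import Pool.Agent.L0h2.J.Fin
import Pool.Agent.L0h2.M.NS
import Pool.Agent.L0h2.J.NS

/-!
# Joint law of a cubic twist and several quadratic twists: the law
-/

set_option autoImplicit false

open scoped Classical

namespace Pool.Agent.L0h2.N

open Pool.Agent.L0h2.J (SS)
open Pool.Agent.L0h2.M (tw tw_sq Ad)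

theorem t_BAD3c : ∃ (C : ℝ) (X₀ : ℕ), ∀ X : ℕ, X₀ ≤ X →
    (((SS X).filter fun S => S.card ≤ Pool.Agent.Y703.CX.kk X ∧
      ¬ Pool.Agent.Y703.CX.Nd (Pool.Agent.Y703.CX.sm (Pool.Agent.Y703.CX.zz X) S)
        (Pool.Agent.Y703.CX.la (Pool.Agent.Y703.CX.zz X) S)).card : ℝ) ≤
      C * X * (Real.log X) ^ (-(19 / 25) : ℝ) := by
  obtain ⟨C, X₀, h⟩ := Pool.Agent.L0h2.B3.t_BAD3 Pool.Agent.Y333.CX.t_LAM
    Pool.Agent.Y488.CX.t_SIE Pool.Agent.L0h2.J.HAL3.t_HA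
  refine ⟨C, X₀, fun X hX => le_trans ?_ (h X hX)⟩
  exact_mod_cast Finset.card_le_card
    (Finset.filter_subset_filter _ (Pool.Agent.L0h2.J.SS_cx X))

theorem t_DQn_all : S_DQn :=
  t_DQn Pool.Agent.Y333.CX.t_LAM KEY.t_KEYn Pool.Agent.Y261.CX.t_BIL1 Pool.Agent.Y779.CX.t_BIL2
    Pool.Agent.R413.SQ.BIL.t_BIL Pool.Agent.L0h2.J.BIL.t_BA Pool.Agent.L0h2.J.BIL.t_BB
    Pool.Agent.L0h2.J.EQ.t_EQ
    (Pool.Agent.Y759.CX.t_LA Pool.Agent.Y461.CX.t_C3)
    (Pool.Agent.L0h2.M.t_LAm Pool.Agent.Y948.CQ.t_C2)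
    BOX.t_BOXn Pool.Agent.L0h2.J.t_CNT Pool.Agent.Y488.CX.t_SIE t_BAD3c BAD.t_BADn
    (Pool.Agent.L0h2.J.FEW.t_FEW Pool.Agent.Y488.CX.t_SIE Pool.Agent.L0h2.J.MER.t_MER) FEW.t_FEWn
    (Pool.Agent.L0h2.J.LOW.t_LOW Pool.Agent.L0h2.J.MER.t_MER Pool.Agent.L0h2.J.MER.t_CHE)
    Pool.Agent.Y461.CX.t_C3 Pool.Agent.Y948.CQ.t_C2

/-- **The joint law for the sets of primes of the class of project J.** -/
theorem law_sets (t : ℕ) (R : Finset ℕ) (hR : ∀ r ∈ R, r.Prime ∧ r % 4 = 1)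
    (T : Fin t → Finset ℕ) (hT : ∀ l, T l ⊆ R) (hi : Function.Injective T) (h : ℕ → ZMod 2)
    (b0 : Bool) (b : Fin t → Bool) : Filter.Tendsto
    (fun X : ℕ => (((SS X).filter (Pn t h T b0 b)).card : ℝ) / ((SS X).card : ℝ)) Filter.atTop
    (nhds (cn t b0 b)) := by
  obtain ⟨a, ha⟩ := dn_of (R := insert 5 R) (fun r hr => by
    rcases Finset.mem_insert.1 hr with rfl | hr
    · exact ⟨by norm_num, rfl⟩
    · exact hR r hr) ⟨5, Finset.mem_insert_self _ _⟩ T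
    (fun l => (hT l).trans (Finset.subset_insert _ _)) hi
  exact t_DQn_all t _ T a h b0 b ha

/-- **The joint law of the cubic twist and of different quadratic twists.** -/
theorem law_D (t : ℕ) (M : Fin t → ℕ) (hM : ∀ i, Ad (M i)) (hi : Function.Injective M)
    (h : ℕ → ZMod 2) (b0 : Bool) (b : Fin t → Bool) (Q : ℕ → Prop)
    (hQ : ∀ D, Squarefree D → Pool.Agent.L0h2.J.Cl D.primeFactors → (Q D ↔
      (Pool.Agent.L0h2.J.ev b0 (Pool.Agent.Y703.CX.Gd D.primeFactors) ∧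
        ∀ i, (Pool.Agent.R413.SQ.Gd h (tw D (M i)).primeFactors ↔ b i = true)))) :
    Filter.Tendsto (fun X : ℕ => (Pool.Agent.L0h2.J.num Q X : ℝ) /
      (Pool.Agent.L0h2.J.num (fun _ => True) X : ℝ)) Filter.atTop (nhds (cn t b0 b)) := by
  have h1 := law_sets t (Finset.univ.biUnion fun i => (M i).primeFactors) (fun r hr => by
    rw [Finset.mem_biUnion] at hr
    obtain ⟨i, _, hi⟩ := hr
    exact ⟨Nat.prime_of_mem_primeFactors hi, (hM i).2 r hi⟩) (fun i => (M i).primeFactors)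
    (fun i => Finset.subset_biUnion_of_mem (fun i => (M i).primeFactors) (Finset.mem_univ i))
    (fun i j hij => hi (by
      have h2 : (M i).primeFactors = (M j).primeFactors := hij
      rw [← Nat.prod_primeFactors_of_squarefree (hM i).1,
        ← Nat.prod_primeFactors_of_squarefree (hM j).1, h2])) h b0 b
  refine h1.congr fun X => ?_
  rw [Pool.Agent.L0h2.J.num_eq (Q := Q) (R := Pn t h (fun i => (M i).primeFactors) b0 b)
    (fun D hD hC => by
      rw [hQ D hD hC]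
      unfold Pn Pq
      refine and_congr_right fun _ => forall_congr' fun i => ?_
      rw [(tw_sq hD (hM i).1).2]),
    Pool.Agent.L0h2.J.num_eq (Q := fun _ => True) (R := fun _ => True) (fun _ _ _ => Iff.rfl),
    Finset.filter_true]

end Pool.Agent.L0h2.N
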