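import Pool.Agent.L0h2.N.Fin

/-!
# Joint laws: lower bounds and complements
-/

set_option autoImplicit false

open scoped Classical

namespace Pool.Agent.L0h2.N

open Filter

/-- a positive proportion of the numbers with prime factors `1` modulo `4` -/
theorem low_ad {Q : ℕ → Prop} {c : ℝ} (hc : 0 < c) (h : Tendsto (fun X : ℕ =>
      (Pool.Agent.L0h2.M.num Q X : ℝ) / (Pool.Agent.L0h2.M.num (fun _ => True) X : ℝ))
      atTop (nhds c)) :
    ∃ (a : ℝ) (X₀ : ℕ), 0 < a ∧ ∀ X : ℕ, X₀ ≤ X →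
      a * X * (Real.log X) ^ (-(1 / 2) : ℝ) ≤ (Pool.Agent.L0h2.M.num Q X : ℝ) := by
  obtain ⟨e, X₁, he, h1⟩ := Pool.Agent.L0h2.K.t_LOWk_all ∅ (by simp)
  have h2 : ∀ᶠ X : ℕ in atTop, c / 2 <
      (Pool.Agent.L0h2.M.num Q X : ℝ) / (Pool.Agent.L0h2.M.num (fun _ => True) X : ℝ) :=
    h.eventually (lt_mem_nhds (by linarith))
  obtain ⟨X₂, h3⟩ := eventually_atTop.1 h2
  refine ⟨c / 2 * e, max X₁ (max X₂ 1), by positivity, fun X hX => ?_⟩
  have h4 := h1 X (le_trans (le_max_left _ _) hX)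
  have h5 := h3 X (le_trans (le_trans (le_max_left _ _) (le_max_right _ _)) hX)
  have e1 : ((Pool.Agent.L0h2.K.SR ∅ X).card : ℝ) =
      (Pool.Agent.L0h2.M.num (fun _ => True) X : ℝ) := by
    rw [Pool.Agent.L0h2.M.num_eq (Q := fun _ => True) (E := fun _ => True)
      (fun _ _ => Iff.rfl), Finset.filter_true]
    unfold Pool.Agent.L0h2.K.SR
    simp
  rw [e1] at h4
  have hn : (0 : ℝ) < (Pool.Agent.L0h2.M.num (fun _ => True) X : ℝ) := by
    have h6 : (0 : ℝ) ≤ (Pool.Agent.L0h2.M.num (fun _ => True) X : ℝ) := Nat.cast_nonneg _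
    rcases h6.eq_or_lt with h7 | h7
    · rw [← h7, div_zero] at h5
      linarith
    · exact h7
  rw [lt_div_iff₀ hn] at h5
  have h8 : c / 2 * (e * X * Real.log X ^ (-(1 / 2) : ℝ)) ≤
      c / 2 * (Pool.Agent.L0h2.M.num (fun _ => True) X : ℝ) :=
    mul_le_mul_of_nonneg_left h4 (by positivity)
  have e2 : c / 2 * e * X * Real.log X ^ (-(1 / 2) : ℝ) =
      c / 2 * (e * X * Real.log X ^ (-(1 / 2) : ℝ)) := by ring
  rw [e2]
  exact h8.trans h5.le

/-- the number of the `D ≤ X` of a class with a property -/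
noncomputable def nC (C Q : ℕ → Prop) (X : ℕ) : ℕ :=
  ((Finset.Icc 1 X).filter fun D => C D ∧ Q D).card

theorem nC_congr {C P Q : ℕ → Prop} (h : ∀ D, C D → (P D ↔ Q D)) (X : ℕ) : nC C P X = nC C Q X := by
  unfold nC
  exact congrArg Finset.card (Finset.filter_congr fun D _ => and_congr_right fun hD => h D hD)

theorem nC_pos {C Q : ℕ → Prop} {X D : ℕ} (h1 : 1 ≤ D) (h2 : D ≤ X) (hC : C D) (hQ : Q D) :
    0 < nC C Q X := by
  unfold nC
  refine Finset.card_pos.2 ⟨D, ?_⟩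
  rw [Finset.mem_filter, Finset.mem_Icc]
  exact ⟨⟨h1, h2⟩, hC, hQ⟩

theorem nC_add' (C P Q U : ℕ → Prop) (hQ : ∀ D, Q D ↔ ¬ P D) (hU : ∀ D, U D) (X : ℕ) :
    nC C P X + nC C Q X = nC C U X := by
  unfold nC
  rw [← Finset.card_union_of_disjoint]
  · congr 1
    ext D
    have h1 := hQ D
    have h2 := hU D
    simp only [Finset.mem_union, Finset.mem_filter]
    tauto
  · rw [Finset.disjoint_left]
    intro D h1 h2
    rw [Finset.mem_filter] at h1 h2
    exact (hQ D).1 h2.2.2 h1.2.2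

theorem nC_add (C P : ℕ → Prop) (X : ℕ) :
    nC C P X + nC C (fun D => ¬ P D) X = nC C (fun _ => True) X :=
  nC_add' C P _ _ (fun _ => Iff.rfl) (fun _ => trivial) X

/-- the complement of an event -/
theorem compl_of (C P : ℕ → Prop) (c : ℝ) (hpos : ∀ᶠ X : ℕ in atTop, 0 < nC C (fun _ => True) X)
    (h : Tendsto (fun X : ℕ => (nC C (fun D => ¬ P D) X : ℝ) / (nC C (fun _ => True) X : ℝ))
      atTop (nhds c)) :
    Tendsto (fun X : ℕ => (nC C P X : ℝ) / (nC C (fun _ => True) X : ℝ)) atTop (nhds (1 - c)) := by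
  refine (h.const_sub 1).congr' ?_
  filter_upwards [hpos] with X hX
  have hX' : (0 : ℝ) < (nC C (fun _ => True) X : ℝ) := by exact_mod_cast hX
  have e : (nC C P X : ℝ) + (nC C (fun D => ¬ P D) X : ℝ) = (nC C (fun _ => True) X : ℝ) := by
    exact_mod_cast nC_add C P X
  rw [eq_div_iff hX'.ne', sub_mul, div_mul_cancel₀ _ hX'.ne', one_mul]
  linarith

end Pool.Agent.L0h2.N
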