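import Pool.Agent.L0h2.M.Stm
import Pool.Agent.L0h2.J.Stm

/-!
# Joint law of a cubic twist and several quadratic twists: the statements of the parts

The class is the class of project J (`Pool.Agent.L0h2.J.SS`). The event for the cubic symbols is the one
of project J, the events for the quadratic symbols are those of the `t` twists by pairwise different
sets of primes `T 1, ..., T t` contained in a fixed finite set `R` of primes `1` modulo `4`.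
-/

set_option autoImplicit false
set_option linter.unusedVariables false

open scoped Classical

namespace Pool.Agent.L0h2.N

open Finset hiding mk
open Pool.Agent.Y703.CX (lam LamP sm la jj XX eL zz kk S_SIE c3)
open Pool.Agent.Y703.CQ (nr sg c2)
open Pool.Agent.R413.SQ (mk)
open Pool.Agent.L0h2.J (SS HB S_EQ S_BA S_BB)
open Pool.Agent.L0h2.K (Zc Nz nr_mod)
open Pool.Agent.L0h2.M (S_LAm er KT)

/-- the modulus -/
def qn (R : Finset ℕ) : ℕ := 252 * ∏ r ∈ R, r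

/-- the data: the primes, the different twists and the private classes -/
structure Dn (t : ℕ) (R : Finset ℕ) (T : Fin t → Finset ℕ) (a : ℕ → ℕ) : Prop where
  pr : ∀ r ∈ R, r.Prime ∧ r % 4 = 1
  ne : R.Nonempty
  sub : ∀ l, T l ⊆ R
  inj : Function.Injective T
  lt : ∀ r ∈ R, a r < qn R
  cop : ∀ r ∈ R, Nat.Coprime (a r) (qn R)
  a4 : ∀ r ∈ R, a r % 4 = 1
  a3 : ∀ r ∈ R, a r % 3 = 1
  am : ∀ r ∈ R, mk (a r) = 1
  self : ∀ r ∈ R, nr r (a r) = 1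
  oth : ∀ r ∈ R, ∀ r' ∈ R, r' ≠ r → nr r' (a r) = 0

/-- the quadratic part of the pattern -/
def Pq (t : ℕ) (h : ℕ → ZMod 2) (T : Fin t → Finset ℕ) (b : Fin t → Bool) (S : Finset ℕ) : Prop :=
  ∀ l, (Pool.Agent.R413.SQ.Gd h (symmDiff S (T l)) ↔ b l = true)

/-- the pattern -/
def Pn (t : ℕ) (h : ℕ → ZMod 2) (T : Fin t → Finset ℕ) (b0 : Bool) (b : Fin t → Bool)
    (S : Finset ℕ) : Prop :=
  Pool.Agent.L0h2.J.ev b0 (Pool.Agent.Y703.CX.Gd S) ∧ Pq t h T b S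

/-- the labels are not degenerate -/
def Nn (R S₀ S₁ : Finset ℕ) : Prop := Pool.Agent.Y703.CX.Nd S₀ S₁ ∧ Nz R (S₀ \ R) S₁

/-- the limit -/
noncomputable def cn (t : ℕ) (b0 : Bool) (b : Fin t → Bool) : ℝ :=
  Pool.Agent.L0h2.J.cv b0 c3 * ∏ l, Pool.Agent.L0h2.K.cv (b l)

/-- the count in a box -/
def S_BOXn (t : ℕ) : Prop := S_EQ → Pool.Agent.Y703.CX.S_LA → S_LAm t →
  ∀ (R : Finset ℕ) (T : Fin t → Finset ℕ)
  (h : ℕ → ZMod 2) (b0 : Bool) (b : Fin t → Bool) (ι : Type) [Fintype ι] [LinearOrder ι]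
  (J3 J2 JZ I K : Finset ι) (JR : ℕ → Finset ι) (C : ι → Finset ℕ)
  (X : ι → ℕ) (κ : ℝ) (S₀ : Finset ℕ) (u Q : ℕ), 0 ≤ κ →
  (∀ i, (C i).card ≤ X i) → HB J3 C X κ → (∀ u ∈ S₀, u.Prime ∧ u % 4 = 1) →
  (∀ u ∈ R, u.Prime ∧ u % 4 = 1) → R.Nonempty → (∀ l, T l ⊆ R) → Function.Injective T →
  (∀ i, ∀ p ∈ C i, (p.Prime ∧ p % 4 = 1) ∧ p ∉ S₀ ∧ (i ∈ J3 → p % 3 = 1) ∧ (i ∉ J3 → p % 3 = 2) ∧
    (i ∈ J2 ↔ mk p = 1)) →
  (∀ i, ∀ p ∈ C i, p ∉ R) → (∀ i, ∀ p ∈ C i, (i ∈ JZ ↔ Zc R p)) →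
  (∀ i, ∀ p ∈ C i, ∀ q ∈ C i, ∀ r ∈ R, nr r p = nr r q) →
  JZ ⊆ I → I ⊆ J2 → K ⊆ J2 → Disjoint K I → (∀ k ∈ J2, k ∈ I ∨ k ∈ K) →
  (∀ r ∈ R, ∀ i ∈ JR r, ∀ p ∈ C i, nr r p = 1 ∧ ∀ r' ∈ R, r' ≠ r → nr r' p = 0) →
  (∀ r ∈ R, JR r ⊆ I) → (∀ r ∈ R, Q ≤ (JR r).card) → 1 ≤ Q → S₀.card + R.card ≤ u →
  (∀ i l, i ≠ l → Disjoint (C i) (C l)) → J3.Nonempty → (∃ i, i ∉ J2) →
  (S₀.filter fun p => p % 3 = 2).card + J3ᶜ.card = 1 →
  |(((Fintype.piFinset C).filter fun p => Nn R S₀ (univ.image p) ∧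
      Pn t h T b0 b (S₀ ∪ univ.image p)).card : ℝ) -
      cn t b0 b * (((Fintype.piFinset C).filter fun p => Nn R S₀ (univ.image p)).card : ℝ)| ≤
    (2 * (3 ^ S₀.card / 3 ^ J3.card) + er t u Q K.card) *
      (((Fintype.piFinset C).filter fun p => Nn R S₀ (univ.image p)).card : ℝ) +
    3 ^ (2 * S₀.card * Fintype.card ι + (Pool.Agent.Y703.CX.prs J3).card) *
      2 ^ ((2 * S₀.card + 1) * Fintype.card ι + (Pool.Agent.Y703.CQ.prs J2).card) *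
      (κ * ∏ j, (X j : ℝ))

/-- the regular sets -/
noncomputable def RN (t : ℕ) (R : Finset ℕ) (a : ℕ → ℕ) (X z H k V : ℕ) : Finset (Finset ℕ) :=
  (SS X).filter fun S => Set.InjOn (jj H) (la z S : Set ℕ) ∧ S.card ≤ k ∧
    (∏ p ∈ sm z S, p) * ∏ p ∈ la z S, XX H (jj H p) ≤ X ∧
    (∀ r ∈ R, (t + 2) * ((sm z S).card + R.card) + 3 * V ≤
      ((la z S).filter fun p => p % qn R = a r).card) ∧
    ∃ p ∈ la z S, mk p ≠ 1

/-- the sum over the boxes -/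
def S_KEYn (t : ℕ) : Prop := LamP → Pool.Agent.Y703.CX.S_BIL1 → Pool.Agent.Y703.CX.S_BIL2 →
  Pool.Agent.R413.SQ.S_BIL → S_BA → S_BB → S_EQ → Pool.Agent.Y703.CX.S_LA → S_LAm t →
  S_BOXn t → ∃ C : ℝ, 1 ≤ C ∧
  ∀ (R : Finset ℕ) (T : Fin t → Finset ℕ) (a : ℕ → ℕ) (h : ℕ → ZMod 2) (b0 : Bool)
  (b : Fin t → Bool) (X z H k V N : ℕ) (κ : ℝ), Dn t R T a → (∀ r ∈ R, r ≤ z) →
  1 ≤ X → 1 ≤ H → 1 ≤ z → 0 ≤ κ → C ≤ κ ^ 12 * z → (H : ℝ) * Real.log X < N →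
  |(((RN t R a X z H k V).filter fun S => Nn R (sm z S) (la z S) ∧ Pn t h T b0 b S).card : ℝ) -
      cn t b0 b *
        (((RN t R a X z H k V).filter fun S => Nn R (sm z S) (la z S)).card : ℝ)| ≤
    (2 + KT t + 4 * t) * (1 / 2 : ℝ) ^ V * ((RN t R a X z H k V).card : ℝ) +
    (qn R * N + qn R : ℝ) ^ k * (3 ^ (8 * k ^ 2) * κ) * (X * (1 + Real.log X))

/-- the saving -/
noncomputable def etn (R : Finset ℕ) : ℝ := 1 / (8 * qn R)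

/-- few sets have degenerate labels -/
def S_BADn : Prop := S_SIE → ∀ R : Finset ℕ, (∀ r ∈ R, r.Prime ∧ r % 4 = 1) →
  ∃ (C : ℝ) (X₀ : ℕ), ∀ X : ℕ, X₀ ≤ X →
  (((SS X).filter fun S => S.card ≤ kk X ∧ ¬ Nz R ((sm (zz X) S) \ R) (la (zz X) S)).card : ℝ) ≤
    C * X * (Real.log X) ^ (-(3 / 4) - etn R : ℝ)

/-- few sets have few large primes in a class -/
def S_FEWn : Prop := S_SIE → ∀ R : Finset ℕ, (∀ r ∈ R, r.Prime ∧ r % 4 = 1) → ∀ (c κ V : ℕ),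
  c < qn R → Nat.Coprime c (qn R) → c % 4 = 1 → c % 3 = 1 → 1 ≤ κ →
  ∃ (C : ℝ) (X₀ : ℕ), ∀ X : ℕ, X₀ ≤ X →
  (((SS X).filter fun S => ((la (zz X) S).filter fun p => p % qn R = c).card ≤
      κ * (sm (zz X) S).card + V).card : ℝ) ≤ C * X * (Real.log X) ^ (-(3 / 4) - etn R : ℝ)

/-- the joint law for the sets of primes -/
def S_DQn : Prop := ∀ (t : ℕ) (R : Finset ℕ) (T : Fin t → Finset ℕ) (a : ℕ → ℕ)
  (h : ℕ → ZMod 2) (b0 : Bool) (b : Fin t → Bool), Dn t R T a → Filter.Tendsto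
  (fun X : ℕ => (((SS X).filter (Pn t h T b0 b)).card : ℝ) / ((SS X).card : ℝ)) Filter.atTop
  (nhds (cn t b0 b))

theorem dvd_qn {R : Finset ℕ} {r : ℕ} (h : r ∈ R) : r ∣ qn R :=
  (Finset.dvd_prod_of_mem (fun r => r) h).mul_left 252

theorem dvd252 (R : Finset ℕ) {m : ℕ} (h : m ∣ 252) : m ∣ qn R := h.mul_right _

theorem mod3 (R : Finset ℕ) (p : ℕ) : p % qn R % 3 = p % 3 :=
  Nat.mod_mod_of_dvd p (dvd252 R (by norm_num))

theorem mod4 (R : Finset ℕ) (p : ℕ) : p % qn R % 4 = p % 4 :=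
  Nat.mod_mod_of_dvd p (dvd252 R (by norm_num))

theorem mod9 (R : Finset ℕ) (p : ℕ) : p % qn R % 9 = p % 9 :=
  Nat.mod_mod_of_dvd p (dvd252 R (by norm_num))

theorem modm (R : Finset ℕ) (p : ℕ) : mk (p % qn R) = mk p := by
  unfold Pool.Agent.R413.SQ.mk
  rw [Nat.mod_mod_of_dvd p (dvd252 R (by norm_num : 7 ∣ 252))]

theorem nr_qn {R : Finset ℕ} {r : ℕ} (hr : r ∈ R) (p : ℕ) : nr r (p % qn R) = nr r p :=
  nr_mod r _ _ (Nat.mod_mod_of_dvd _ (dvd_qn hr))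

theorem Zc_qn (R : Finset ℕ) (p : ℕ) : Zc R (p % qn R) ↔ Zc R p := by
  unfold Pool.Agent.L0h2.K.Zc
  rw [modm]
  refine and_congr_right fun _ => forall₂_congr fun r hr => ?_
  rw [nr_qn hr]

theorem qn_pos {R : Finset ℕ} (h : ∀ r ∈ R, r.Prime ∧ r % 4 = 1) : 0 < qn R :=
  Nat.mul_pos (by norm_num) (Finset.prod_pos fun r hr => (h r hr).1.pos)

/-- the symmetric difference with a subset of `R` -/
theorem sym_eq {R S₀ I T : Finset ℕ} (hT : T ⊆ R) (hI : ∀ x ∈ I, x ∉ R) :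
    symmDiff (S₀ ∪ I) T = ((S₀ \ R) ∪ symmDiff (S₀ ∩ R) T) ∪ I := by
  ext x
  simp only [Finset.mem_symmDiff, Finset.mem_union, Finset.mem_sdiff, Finset.mem_inter]
  have := @hT x
  have := hI x
  tauto

end Pool.Agent.L0h2.N
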